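import Pool.Agent.R538.Clk.Defs

/-!
# General facts on groups and removal
-/

namespace Pool.Agent.R538.Clk

open Relation

theorem Adj.symm {p q : ℕ × ℕ} (h : Adj p q) : Adj q p := by
  unfold Adj at *
  rcases h with ⟨h1, h2⟩ | ⟨h1, h2⟩
  · exact Or.inl ⟨h1.symm, h2.symm⟩
  · exact Or.inr ⟨h1.symm, h2.symm⟩

theorem Link.symm {B : Board} {p q : ℕ × ℕ} (h : Link B p q) : Link B q p := by
  obtain ⟨h1, t, h2, h3⟩ := h
  exact ⟨h1.symm, t, h3, h2⟩

theorem Grp.refl {B : Board} (p : ℕ × ℕ) : Grp B p p := ReflTransGen.refl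

theorem Grp.trans {B : Board} {p q r : ℕ × ℕ} (h : Grp B p q) (h' : Grp B q r) : Grp B p r :=
  ReflTransGen.trans h h'

theorem Link.grp {B : Board} {p q : ℕ × ℕ} (h : Link B p q) : Grp B p q := ReflTransGen.single h

theorem Grp.symm {B : Board} {p q : ℕ × ℕ} (h : Grp B p q) : Grp B q p := by
  induction h with
  | refl => exact Grp.refl _
  | tail _ h2 ih => exact (h2.symm.grp).trans ih

theorem Grp.closed {B : Board} {P : ℕ × ℕ → Prop} (hP : ∀ q q', P q → Link B q q' → P q')
    {p q : ℕ × ℕ} (h : Grp B p q) (hp : P p) : P q := by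
  induction h with
  | refl => exact hp
  | tail _ h2 ih => exact hP _ _ ih h2

theorem Grp.tile {B : Board} {p q : ℕ × ℕ} {t : ℕ} (h : Grp B p q) (hp : tile B p = some t) :
    tile B q = some t := by
  refine h.closed (P := fun q => Clk.tile B q = some t) ?_ hp
  rintro a b ha ⟨-, t', h1, h2⟩
  rw [ha] at h1
  cases h1
  exact h2

theorem Grp.exists_tile {B : Board} {p q : ℕ × ℕ} (hne : p ≠ q) (h : Grp B p q) :
    ∃ t, Clk.tile B p = some t := by
  rcases ReflTransGen.cases_head h with h1 | ⟨c, h1, -⟩
  · exact absurd h1 hne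
  · obtain ⟨-, t, h2, -⟩ := h1
    exact ⟨t, h2⟩

theorem Grp.exists_neighbor {B : Board} {p q : ℕ × ℕ} (hne : p ≠ q) (h : Grp B p q) :
    ∃ r, Link B p r := by
  rcases ReflTransGen.cases_head h with h1 | ⟨c, h1, -⟩
  · exact absurd h1 hne
  · exact ⟨c, h1⟩

/-- A path from a column `≤ i` to a column `> i` crosses between `i` and `i + 1`. -/
theorem Grp.cross {B : Board} {p q : ℕ × ℕ} {i : ℕ} (h : Grp B p q) (hp : p.1 ≤ i) (hq : i < q.1) :
    ∃ r, Grp B p (i, r) ∧ Grp B p (i + 1, r) := by
  induction h with
  | refl => omega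
  | @tail b c h1 h2 ih =>
    by_cases hb : i < b.1
    · exact ih hb
    · have hb' : b.1 ≤ i := not_lt.1 hb
      have h3 := h2
      obtain ⟨h4, -⟩ := h2
      unfold Adj at h4
      have e1 : b.1 = i := by omega
      have e2 : c.1 = i + 1 := by omega
      have e3 : b.2 = c.2 := by omega
      refine ⟨b.2, ?_, ?_⟩
      · have : b = (i, b.2) := Prod.ext e1 rfl
        rw [← this]; exact h1
      · have : c = (i + 1, b.2) := Prod.ext e2 e3.symm
        rw [← this]; exact Grp.trans h1 h3.grp

/-- Connectivity of a union of vertical intervals of colour `t` in consecutive columns `lo ≤ i < hi`. -/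
theorem conn_intervals {B : Board} {t lo hi : ℕ} {a b : ℕ → ℕ}
    (htile : ∀ i, lo ≤ i → i < hi → ∀ r, a i ≤ r → r < b i → tile B (i, r) = some t)
    (hshare : ∀ i, lo ≤ i → i + 1 < hi → ∃ r, (a i ≤ r ∧ r < b i) ∧ (a (i + 1) ≤ r ∧ r < b (i + 1)))
    {i j r r' : ℕ} (hi1 : lo ≤ i) (hi2 : i < hi) (hr1 : a i ≤ r) (hr2 : r < b i)
    (hj1 : lo ≤ j) (hj2 : j < hi) (hr1' : a j ≤ r') (hr2' : r' < b j) : Grp B (i, r) (j, r') := by
  -- vertical
  have hv : ∀ i, lo ≤ i → i < hi → ∀ r, a i ≤ r → ∀ d, r + d < b i → Grp B (i, r) (i, r + d) := by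
    intro i h1 h2 r h3 d
    induction d with
    | zero => intro _; exact Grp.refl _
    | succ d ih =>
      intro h4
      refine (ih (by omega)).trans (Link.grp ⟨Or.inl ⟨rfl, Or.inl rfl⟩, t, ?_, ?_⟩)
      · exact htile i h1 h2 _ (by omega) (by omega)
      · exact htile i h1 h2 _ (by omega) (by omega)
  have hv' : ∀ i, lo ≤ i → i < hi → ∀ r r', a i ≤ r → r < b i → a i ≤ r' → r' < b i →
      Grp B (i, r) (i, r') := by
    intro i h1 h2 r r' h3 h4 h5 h6
    rcases le_total r r' with h | h
    · obtain ⟨d, rfl⟩ := Nat.exists_eq_add_of_le h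
      exact hv i h1 h2 r h3 d h6
    · obtain ⟨d, rfl⟩ := Nat.exists_eq_add_of_le h
      exact (hv i h1 h2 r' h5 d h4).symm
  -- horizontal
  have hh : ∀ i, lo ≤ i → ∀ d, i + d < hi → ∀ r r', a i ≤ r → r < b i → a (i + d) ≤ r' →
      r' < b (i + d) → Grp B (i, r) (i + d, r') := by
    intro i h1 d
    induction d with
    | zero => intro h2 r r' h3 h4 h5 h6; exact hv' i h1 h2 r r' h3 h4 h5 h6
    | succ d ih =>
      intro h2 r r' h3 h4 h5 h6
      obtain ⟨s, ⟨s1, s2⟩, s3, s4⟩ := hshare (i + d) (by omega) (by omega)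
      refine (ih (by omega) r s h3 h4 s1 s2).trans (Grp.trans (Link.grp (q := (i + d + 1, s)) ?_) ?_)
      · exact ⟨Or.inr ⟨rfl, Or.inl rfl⟩, t, htile _ (by omega) (by omega) _ s1 s2,
          htile _ (by omega) (by omega) _ s3 s4⟩
      · exact hv' (i + d + 1) (by omega) (by omega) s r' s3 s4 h5 h6
  rcases le_total i j with h | h
  · obtain ⟨d, rfl⟩ := Nat.exists_eq_add_of_le h
    exact hh i hi1 d hj2 r r' hr1 hr2 hr1' hr2'
  · obtain ⟨d, rfl⟩ := Nat.exists_eq_add_of_le h
    exact (hh j hj1 d hi2 r' r hr1' hr2' hr1 hr2).symm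

/-! ### `keepCol` -/

theorem keepCol_append (S : ℕ → Prop) (U V : List ℕ) :
    keepCol S (U ++ V) = keepCol S U ++ keepCol (fun j => S (j + U.length)) V := by
  induction U generalizing S with
  | nil => simp [keepCol]
  | cons t U ih =>
    simp only [List.cons_append, keepCol, List.length_cons]
    rw [ih]
    have : (fun j => S (j + U.length + 1)) = fun j => S (j + (U.length + 1)) := by
      funext j; rw [add_assoc]
    split_ifs
    · rw [this]
    · rw [this]; rfl

theorem keepCol_eq_self {S : ℕ → Prop} {c : List ℕ} (h : ∀ j < c.length, ¬ S j) :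
    keepCol S c = c := by
  induction c generalizing S with
  | nil => rfl
  | cons t c ih =>
    simp only [keepCol]
    rw [if_neg (h 0 (by simp)), ih]
    intro j hj
    exact h (j + 1) (by simpa using hj)

theorem keepCol_eq_nil {S : ℕ → Prop} {c : List ℕ} (h : ∀ j < c.length, S j) :
    keepCol S c = [] := by
  induction c generalizing S with
  | nil => rfl
  | cons t c ih =>
    simp only [keepCol]
    rw [if_pos (h 0 (by simp)), ih]
    intro j hj
    exact h (j + 1) (by simpa using hj)

theorem mem_keepCol {S : ℕ → Prop} {col : List ℕ} {j s : ℕ} (h : col[j]? = some s) (hS : ¬ S j) :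
    s ∈ keepCol S col := by
  induction col generalizing S j with
  | nil => simp at h
  | cons t col ih =>
    simp only [keepCol]
    cases j with
    | zero =>
      rw [if_neg hS]
      simp only [List.getElem?_cons_zero, Option.some.injEq] at h
      rw [h]
      exact List.mem_cons_self
    | succ j =>
      have := ih (S := fun j => S (j + 1)) (j := j) (by simpa using h) hS
      split_ifs
      · exact this
      · exact List.mem_cons_of_mem _ this

theorem keepCol_filter {S : ℕ → Prop} {col : List ℕ} (t : ℕ)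
    (h : ∀ j s, col[j]? = some s → (S j ↔ s = t)) :
    keepCol S col = col.filter (fun s => decide (s ≠ t)) := by
  induction col generalizing S with
  | nil => rfl
  | cons s col ih =>
    simp only [keepCol]
    have h0 := h 0 s (by simp)
    have h1 := ih (S := fun j => S (j + 1)) (fun j s' hs' => h (j + 1) s' (by simpa using hs'))
    rw [h1]
    by_cases hst : s = t
    · rw [if_pos (h0.2 hst), List.filter_cons_of_neg (by simp [hst])]
    · rw [if_neg (fun h' => hst (h0.1 h')), List.filter_cons_of_pos (by simp [hst])]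

theorem keepCol_sublist (S : ℕ → Prop) (c : List ℕ) : (keepCol S c).Sublist c := by
  induction c generalizing S with
  | nil => exact List.Sublist.refl _
  | cons t c ih =>
    simp only [keepCol]
    split_ifs
    · exact (ih _).cons _
    · exact (ih _).cons_cons _

theorem keepCol_congr {S S' : ℕ → Prop} {c : List ℕ} (h : ∀ j < c.length, (S j ↔ S' j)) :
    keepCol S c = keepCol S' c := by
  induction c generalizing S S' with
  | nil => rfl
  | cons t c ih =>
    simp only [keepCol]
    rw [ih (S := fun j => S (j + 1)) (S' := fun j => S' (j + 1))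
      (fun j hj => h (j + 1) (by simpa using hj))]
    by_cases h0 : S 0
    · rw [if_pos h0, if_pos ((h 0 (by simp)).1 h0)]
    · rw [if_neg h0, if_neg (fun h' => h0 ((h 0 (by simp)).2 h'))]

/-- Removing a whole group which consists of all the tiles of a colour. -/
theorem remove_color {B : Board} {p : ℕ × ℕ} {t : ℕ} (ht : tile B p = some t)
    (hall : ∀ q, tile B q = some t → Grp B p q) :
    remove B (Grp B p) = (B.map (List.filter (fun s => decide (s ≠ t)))).filter (fun c => c ≠ []) := by
  unfold remove
  congr 1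
  apply List.ext_getElem
  · simp
  · intro i h1 h2
    rw [List.getElem_mapIdx, List.getElem_map]
    apply keepCol_filter
    intro j s hs
    have hi : i < B.length := by simpa using h1
    have htile : tile B (i, j) = some s := by
      simp only [tile, List.getElem?_eq_getElem hi, Option.bind_some]
      exact hs
    constructor
    · intro hg
      have := hg.tile ht
      rw [htile] at this
      exact Option.some.inj this
    · rintro rfl
      exact hall _ htile

theorem tile_eq {B : Board} {i j : ℕ} {col : List ℕ} (h : B[i]? = some col) :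
    tile B (i, j) = col[j]? := by
  simp [tile, h]

theorem tile_some {B : Board} {i j t : ℕ} (h : tile B (i, j) = some t) :
    ∃ col, B[i]? = some col ∧ col[j]? = some t := by
  unfold tile at h
  exact Option.bind_eq_some_iff.1 h

/-- Each click removes only one colour, hence the number of colours is a lower bound. -/
theorem Reaches.colors {k : ℕ} {B B' : Board} (h : Reaches k B B') (T : Finset ℕ)
    (hT : ∀ t ∈ T, ∃ c ∈ B, t ∈ c) (h0 : tiles B' = 0) : T.card ≤ k := by
  induction h generalizing T with
  | refl k B =>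
    by_contra hc
    push Not at hc
    obtain ⟨t, ht⟩ := Finset.card_pos.1 (by omega : 0 < T.card)
    obtain ⟨c, hc1, hc2⟩ := hT t ht
    have h1 : c.length ≤ tiles B := List.single_le_sum (by simp) _ (List.mem_map_of_mem hc1)
    have h2 : 0 < c.length := List.length_pos_of_mem hc2
    omega
  | @step k B B₁ B₂ h1 h2 ih =>
    obtain ⟨p, q, hne, hg⟩ := h1
    obtain ⟨t, ht⟩ := Grp.exists_tile hne hg
    have := ih (T.erase t) ?_ h0
    · have h3 := Finset.pred_card_le_card_erase (s := T) (a := t)
      omega
    · intro s hs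
      obtain ⟨hs1, hs2⟩ := Finset.mem_erase.1 hs
      obtain ⟨col, hc1, hc2⟩ := hT s hs2
      obtain ⟨i, hi, hic⟩ := List.getElem_of_mem hc1
      obtain ⟨j, hj, hjs⟩ := List.getElem_of_mem hc2
      have hmem : s ∈ keepCol (fun j => Grp B p (i, j)) col := by
        refine mem_keepCol (j := j) (by rw [List.getElem?_eq_getElem hj, hjs]) ?_
        intro hgr
        have h3 := hgr.tile ht
        rw [tile_eq (List.getElem?_eq_getElem hi), hic, List.getElem?_eq_getElem hj, hjs] at h3
        exact hs1 (Option.some.inj h3)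
      refine ⟨keepCol (fun j => Grp B p (i, j)) col, ?_, hmem⟩
      unfold remove
      rw [List.mem_filter]
      refine ⟨?_, ?_⟩
      · rw [List.mem_mapIdx]
        exact ⟨i, hi, by rw [hic]⟩
      · simp only [ne_eq, decide_not, Bool.not_eq_eq_eq_not, Bool.not_true, decide_eq_false_iff_not]
        intro h'
        rw [h'] at hmem
        simp at hmem

end Pool.Agent.R538.Clk
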