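import Pool.Agent.R538.Clk.Sound2

/-!
# Completeness: from a dominating set to a click sequence
-/

namespace Pool.Agent.R538.Clk

theorem Reaches.mono {r r' : ℕ} {B B' : Board} (h : Reaches r B B') (hr : r ≤ r') : Reaches r' B B' := by
  induction h generalizing r' with
  | refl r B => exact Reaches.refl _ _
  | @step r B B₁ B₂ h1 _ ih =>
    obtain ⟨m, rfl⟩ : ∃ m, r' = m + 1 := ⟨r' - 1, by omega⟩
    exact Reaches.step h1 (ih (by omega))

theorem Reaches.trans {a b : ℕ} {B B' B'' : Board} (h : Reaches a B B') (h' : Reaches b B' B'') :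
    Reaches (a + b) B B'' := by
  induction h with
  | refl r B => exact h'.mono (by omega)
  | @step r B B₁ B₂ h1 _ ih =>
    rw [show r + 1 + b = (r + b) + 1 by ring]
    exact Reaches.step h1 (ih h')

theorem Click.one {B B' : Board} (h : Click B B') : Reaches 1 B B' :=
  Reaches.step h (Reaches.refl 0 _)

theorem click_color {B : Board} {t : ℕ} {p q : ℕ × ℕ} (hne : p ≠ q) (hp : tile B p = some t)
    (hq : tile B q = some t) (hall : ∀ q', tile B q' = some t → Grp B p q') :
    Click B ((B.map (List.filter (fun s => decide (s ≠ t)))).filter (fun c => c ≠ [])) := by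
  rw [← remove_color hp hall]
  exact Click.mk p q hne (hall q hq)

namespace Par

variable {P : Par} {L : List ℕ} {Ds : List (Option ℕ × List ℕ)} {c s : Bool} {t : ℕ}

/-- remaining levels after removing the levels `2 v`, `v ∈ vs` -/
def Lv (P : Par) (vs : List ℕ) : List ℕ :=
  (List.range (2 * P.N)).filter (fun j => decide (¬ (j % 2 = 0 ∧ j / 2 ∈ vs)))

theorem Lv_sub (vs : List ℕ) : (P.Lv vs).Sublist (List.range (2 * P.N)) := List.filter_sublist

theorem Lv_cons (v : ℕ) (vs : List ℕ) :
    P.Lv (v :: vs) = (P.Lv vs).filter (fun j => decide (j ≠ 2 * v)) := by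
  unfold Lv
  rw [List.filter_filter]
  congr 1
  funext j
  rw [← Bool.decide_and]
  congr 1
  rw [eq_iff_iff, List.mem_cons]
  constructor
  · intro h
    refine ⟨fun hj => h ⟨by omega, Or.inl (by omega)⟩, fun hj => h ⟨hj.1, Or.inr hj.2⟩⟩
  · rintro ⟨h1, h2⟩ ⟨h3, h4⟩
    rcases h4 with h4 | h4
    · exact h1 (by omega)
    · exact h2 ⟨h3, h4⟩

theorem Lv_decomp {v : ℕ} {vs : List ℕ} (hv : v < P.N) (hnot : v ∉ vs) :
    ∃ L₁ L₂, P.Lv vs = L₁ ++ [2 * v] ++ L₂ ∧ IsRun P L₁ [2 * v] L₂ 0 := by
  obtain ⟨m, hm⟩ : ∃ m, 2 * P.N = 2 * v + (2 + m) := ⟨2 * P.N - 2 * v - 2, by omega⟩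
  let p : ℕ → Bool := fun j => decide (¬ (j % 2 = 0 ∧ j / 2 ∈ vs))
  have e1 : List.range (2 * P.N) = List.range (2 * v) ++
      ([2 * v, 2 * v + 1] ++ ((List.range m).map (fun x => 2 + x)).map (fun x => 2 * v + x)) := by
    rw [hm, List.range_add, List.range_add]
    simp [List.range_succ]
  have p0 : p (2 * v) = true := by
    simp only [p, decide_eq_true_eq, not_and]
    intro _
    rwa [show 2 * v / 2 = v by omega]
  have p1 : ∀ x, p (2 * x + 1) = true := by
    intro x
    simp only [p, decide_eq_true_eq, not_and]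
    intro h; omega
  have e2 : P.Lv vs = (List.range (2 * v)).filter p ++ [2 * v] ++ ((2 * v + 1) ::
      (((List.range m).map (fun x => 2 + x)).map (fun x => 2 * v + x)).filter p) := by
    unfold Lv
    change (List.range (2 * P.N)).filter p = _
    rw [e1, List.filter_append, List.filter_append]
    simp [List.filter_cons, p0, p1]
  refine ⟨_, _, e2, ?_, by simp, ?_, ?_, ?_⟩
  · rw [← e2]; exact Lv_sub vs
  · intro x hx
    rw [List.mem_singleton] at hx
    omega
  · intro x hx
    cases v with
    | zero => simp at hx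
    | succ v =>
      have e3 : List.range (2 * (v + 1)) = List.range (2 * v + 1) ++ [2 * v + 1] := by
        rw [show 2 * (v + 1) = 2 * v + 1 + 1 by ring, List.range_succ]
      rw [e3, List.filter_append] at hx
      simp only [List.filter_cons, p1, List.filter_nil, if_true] at hx
      rw [List.getLast?_append_of_ne_nil _ (by simp)] at hx
      simp only [List.getLast?_singleton, Option.some.injEq] at hx
      omega
  · intro x hx
    simp only [List.head?_cons, Option.some.injEq] at hx
    omega

theorem colc_ne {D : Option ℕ × List ℕ} (h : D.2 ≠ []) : P.colc L D ≠ [] := by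
  unfold colc
  intro h'
  exact h (List.append_eq_nil_iff.1 h').2

theorem colc_ne' {D : Option ℕ × List ℕ} (h : L ≠ []) : P.colc L D ≠ [] := by
  unfold colc
  intro h'
  obtain ⟨x, M, rfl⟩ := List.exists_cons_of_ne_nil h
  rw [stk_cons] at h'
  have h1 := congrArg List.length h'
  simp only [List.length_append, List.length_replicate, List.length_nil] at h1
  have := th_pos (P := P) D.1 x
  omega

theorem Ds0_filter (L : List ℕ) : P.Ds0.filter (fun D => P.colc L D ≠ []) = P.Ds0 := by
  rw [List.filter_eq_self]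
  intro D hD
  have : D.2 ≠ [] := by
    rcases mem_Ds0 hD with rfl | ⟨w, -, rfl⟩ <;> simp [upR, upG, H]
  simpa using colc_ne (P := P) (L := L) this

theorem Ds0_head (hn : 0 < P.n) : ∃ M, P.Ds0 = (none, P.upR) :: M := by
  unfold Ds0
  rw [List.replicate_succ, List.flatten_cons]
  obtain ⟨m, hm⟩ : ∃ m, P.n = m + 1 := ⟨P.n - 1, by omega⟩
  unfold blk
  rw [hm, List.range_succ_eq_map, List.flatMap_cons]
  exact ⟨_, rfl⟩

/-- clicking the levels -/
theorem click_levels (hn : 0 < P.n) (vs : List ℕ) (hvs : vs.Nodup) (hlt : ∀ v ∈ vs, v < P.n) :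
    Reaches vs.length (P.board (List.range (2 * P.N)) P.Ds0 true true)
      (P.board (P.Lv vs) P.Ds0 true true) := by
  induction vs with
  | nil =>
    have : P.Lv [] = List.range (2 * P.N) := by
      unfold Lv
      rw [List.filter_eq_self]
      intro x _
      simp
    rw [this]
    exact Reaches.refl _ _
  | cons v vs ih =>
    rw [List.nodup_cons] at hvs
    refine (ih hvs.2 (fun u hu => hlt u (List.mem_cons_of_mem _ hu))).trans (b := 1) (Click.one ?_)
    have hv : v < P.N := by
      have := hlt v List.mem_cons_self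
      unfold N
      nlinarith
    obtain ⟨L₁, L₂, e, hrun⟩ := Lv_decomp hv hvs.1
    obtain ⟨M, hM⟩ := Ds0_head hn
    have hup : ∀ D ∈ P.Ds0, ∀ u ∈ D.2, u ≠ 0 := by
      intro D hD u hu
      rcases inv0.up D hD u hu with h | h <;> omega
    have htail : ∀ r, tile (P.board (L₁ ++ [2 * v] ++ L₂) P.Ds0 true true) (P.Ds0.length, r) ≠ some 0 := by
      intro r hr
      rcases tile_tail0 hr with ⟨-, h⟩ | ⟨h, -⟩
      · omega
      · exact absurd h (by simp)
    have hp : InRun P L₁ [2 * v] P.Ds0 (0, P.len none L₁) :=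
      ⟨(none, P.upR), by rw [hM]; rfl, le_rfl, by
        have := hrun.len_run none
        have := hrun.Z_pos
        simp only
        omega⟩
    have hq : InRun P L₁ [2 * v] P.Ds0 (0, P.len none L₁ + 1) :=
      ⟨(none, P.upR), by rw [hM]; rfl, by simp, by
        have := hrun.len_run none
        have := hrun.Z_pos
        simp only
        omega⟩
    have h1 := run_remove hrun hup htail hp
    rw [Ds0_filter] at h1
    have e3 : P.Lv (v :: vs) = L₁ ++ L₂ := by
      rw [Lv_cons, e]
      have hnd : (L₁ ++ [2 * v] ++ L₂).Nodup := List.Nodup.sublist hrun.sub List.nodup_range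
      rw [List.append_assoc, List.singleton_append, List.nodup_middle, List.nodup_cons] at hnd
      rw [List.filter_append, List.filter_append]
      rw [List.filter_eq_self.2, List.filter_eq_nil_iff.2, List.filter_eq_self.2]
      · simp
      · intro x hx
        have : x ≠ 2 * v := by
          rintro rfl; exact hnd.1 (List.mem_append_right _ hx)
        simpa using this
      · intro x hx; simpa using hx
      · intro x hx
        have : x ≠ 2 * v := by
          rintro rfl; exact hnd.1 (List.mem_append_left _ hx)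
        simpa using this
    rw [e3, ← h1, e]
    exact Click.mk _ (0, P.len none L₁ + 1) (by simp) (run_conn hrun hp hq)

theorem Lv_last {vs : List ℕ} (hN : 0 < P.N) : 2 * P.N - 1 ∈ P.Lv vs := by
  unfold Lv
  rw [List.mem_filter, List.mem_range]
  refine ⟨by omega, ?_⟩
  simp only [decide_eq_true_eq, not_and]
  intro h; omega

/-- the offsets after the level clicks -/
theorem Lv_offset (hn : 0 < P.n) {vs : List ℕ} (hvs : vs.Nodup) (hlt : ∀ v ∈ vs, v < P.n)
    (hcard : vs.length ≤ P.k) {w : ℕ} (hdom : ∃ v ∈ vs, P.adj w v = true) :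
    P.len (some w) (P.Lv vs) ≤ P.len none (P.Lv vs) + P.y ∧
      P.len none (P.Lv vs) + P.y < P.len (some w) (P.Lv vs) + P.H := by
  have hN : 0 < P.N := Nat.mul_pos hn (by omega)
  have hnd : (P.Lv vs).Nodup := List.Nodup.sublist (Lv_sub vs) List.nodup_range
  have hc1 : (P.Lv vs).count (2 * P.N - 1) = 1 := by
    have h1 := List.nodup_iff_count_le_one.1 hnd (2 * P.N - 1)
    have h2 := List.count_pos_iff.2 (Lv_last (vs := vs) hN)
    omega
  have hal := al_le (P := P) w
  have hy : P.y = 2 * P.N + P.H := rfl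
  have hH : P.H = P.k + 1 := rfl
  have hnN : P.n ≤ P.N := by unfold N; nlinarith
  -- upper bound for `al`
  have h1 : P.al w ≤ ((P.Lv vs).filter (P.hit w)).length + vs.length := by
    unfold al
    have e : ((P.Lv vs).filter (P.hit w)).length + vs.length
        = ((P.Lv vs).filter (P.hit w) ++ vs.map (fun v => 2 * v)).length := by simp
    rw [e]
    refine List.Subperm.length_le (List.subperm_of_subset (List.Nodup.filter _ List.nodup_range) ?_)
    intro j hj
    rw [List.mem_filter, List.mem_range] at hj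
    rw [List.mem_append]
    by_cases hjv : j % 2 = 0 ∧ j / 2 ∈ vs
    · right
      rw [List.mem_map]
      exact ⟨j / 2, hjv.2, by omega⟩
    · left
      rw [List.mem_filter]
      refine ⟨?_, hj.2⟩
      unfold Lv
      rw [List.mem_filter, List.mem_range]
      exact ⟨hj.1, decide_eq_true hjv⟩
  have h2 : ((P.Lv vs).filter (P.hit w)).length + 1 ≤ P.al w := by
    obtain ⟨v, hv, hadj⟩ := hdom
    have hvn := hlt v hv
    have e : ((P.Lv vs).filter (P.hit w)).length + 1 = (2 * v :: (P.Lv vs).filter (P.hit w)).length := by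
      simp
    rw [e]
    unfold al
    refine List.Subperm.length_le (List.subperm_of_subset ?_ ?_)
    · rw [List.nodup_cons]
      refine ⟨?_, hnd.filter _⟩
      intro hmem
      have := (List.mem_filter.1 (List.mem_filter.1 hmem).1).2
      simp only [decide_eq_true_eq, not_and] at this
      refine this (by omega) ?_
      rwa [show 2 * v / 2 = v by omega]
    · intro j hj
      rw [List.mem_filter, List.mem_range]
      rcases List.mem_cons.1 hj with rfl | hj
      · refine ⟨by omega, ?_⟩
        simp only [hit, Bool.and_eq_true, decide_eq_true_eq]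
        refine ⟨by omega, ?_⟩
        rw [show 2 * v / 2 = v by omega, Nat.mod_eq_of_lt hvn]
        exact hadj
      · rw [List.mem_filter] at hj
        exact ⟨List.mem_range.1 ((Lv_sub vs).subset hj.1), hj.2⟩
  rw [len_some hN, len_none, hc1, one_mul]
  omega

theorem stage {L : List ℕ} {Ds : List (Option ℕ × List ℕ)} {c s : Bool} {t : ℕ} {p q : ℕ × ℕ}
    (hne : p ≠ q) (hp : tile (P.board L Ds c s) p = some t) (hq : tile (P.board L Ds c s) q = some t)
    (hall : ∀ q', tile (P.board L Ds c s) q' = some t → Grp (P.board L Ds c s) p q') :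
    Click (P.board L Ds c s) (P.board (L.filter (fun j => decide (j % 2 ≠ t)))
        ((Ds.map (fun D => (D.1, D.2.filter (fun u => decide (u ≠ t))))).filter
          (fun D => P.colc (L.filter (fun j => decide (j % 2 ≠ t))) D ≠ []))
        (c && decide (t ≠ 2)) (s && decide (t ≠ 0))) := by
  rw [← color_filter]
  exact click_color hne hp hq hall

/-- the first stage: colour `3` -/
theorem stage3 (hn : 0 < P.n)
    (hoff : ∀ w < P.n, P.len (some w) L ≤ P.len none L + P.y ∧
      P.len none L + P.y < P.len (some w) L + P.H) :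
    ∃ Ds', Click (P.board L P.Ds0 c s) (P.board L Ds' c s) ∧ (none, List.replicate P.y 4) ∈ Ds' ∧
      ∀ D ∈ Ds', D = (none, List.replicate P.y 4) ∨ ∃ w, D = (some w, []) := by
  obtain ⟨M, hM⟩ := Ds0_head hn
  have hpos : ∀ q, tile (P.board L P.Ds0 c s) q = some 3 → ∃ D, P.Ds0[q.1]? = some D ∧
      ((D.1 = none ∧ q.2 = P.len none L + P.y) ∨
        ∃ w < P.n, D.1 = some w ∧ P.len (some w) L ≤ q.2 ∧ q.2 < P.len (some w) L + P.H) := by
    intro q hq
    have hq' := hq
    obtain ⟨D, h1, -, -⟩ := upper_pos (by omega) (by omega) (by omega) hq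
    refine ⟨D, h1, ?_⟩
    have h2 : (P.colc L D)[q.2]? = some 3 := by
      rw [← tile_lt (c := c) (s := s) h1]; exact hq'
    rcases mem_Ds0 (List.mem_of_getElem? h1) with rfl | ⟨w, hw, rfl⟩
    · exact Or.inl ⟨rfl, upR_three h2⟩
    · exact Or.inr ⟨w, hw, rfl, upG_three h2⟩
  -- intervals
  let a : ℕ → ℕ := fun i => match tyOf P.Ds0 i with
    | none => P.len none L + P.y
    | some w => P.len (some w) L
  let b : ℕ → ℕ := fun i => match tyOf P.Ds0 i with
    | none => P.len none L + P.y + 1
    | some w => P.len (some w) L + P.H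
  have hint : ∀ q, tile (P.board L P.Ds0 c s) q = some 3 →
      q.1 < P.Ds0.length ∧ a q.1 ≤ q.2 ∧ q.2 < b q.1 := by
    intro q hq
    obtain ⟨D, h1, h2⟩ := hpos q hq
    refine ⟨(List.getElem?_eq_some_iff.1 h1).1, ?_⟩
    simp only [a, b, tyOf_eq h1]
    rcases h2 with ⟨h3, h4⟩ | ⟨w, -, h3, h4, h5⟩
    · rw [h3]; simp only; omega
    · rw [h3]; exact ⟨h4, h5⟩
  have hconn : ∀ q q', tile (P.board L P.Ds0 c s) q = some 3 → tile (P.board L P.Ds0 c s) q' = some 3 →
      Grp (P.board L P.Ds0 c s) q q' := by
    intro q q' hq hq'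
    obtain ⟨h1, h2, h3⟩ := hint q hq
    obtain ⟨h1', h2', h3'⟩ := hint q' hq'
    refine conn_intervals (t := 3) (lo := 0) (hi := P.Ds0.length) (a := a) (b := b) ?_ ?_
      (Nat.zero_le _) h1 h2 h3 (Nat.zero_le _) h1' h2' h3'
    · intro i _ hi r hr1 hr2
      have hD : P.Ds0[i]? = some P.Ds0[i] := List.getElem?_eq_getElem hi
      rw [tile_lt hD]
      simp only [a, b, tyOf_eq hD] at hr1 hr2
      rcases mem_Ds0 (List.getElem_mem hi) with h | ⟨w, hw, h⟩
      · rw [h] at hr1 hr2 ⊢
        simp only at hr1 hr2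
        have : r = P.len none L + P.y := by omega
        subst this
        unfold colc upR
        simp only
        rw [List.getElem?_append_right (by rw [length_stk]; omega), length_stk,
          List.getElem?_append_right (by simp)]
        simp
      · rw [h] at hr1 hr2 ⊢
        simp only at hr1 hr2
        unfold colc upG
        simp only
        rw [List.getElem?_append_right (by rw [length_stk]; omega), length_stk,
          List.getElem?_replicate, if_pos (by omega)]
    · intro i _ hi
      have key : ∀ i < P.Ds0.length, a i ≤ P.len none L + P.y ∧ P.len none L + P.y < b i := by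
        intro i hi
        have hD : P.Ds0[i]? = some P.Ds0[i] := List.getElem?_eq_getElem hi
        simp only [a, b, tyOf_eq hD]
        rcases mem_Ds0 (List.getElem_mem hi) with h | ⟨w, hw, h⟩
        · rw [h]; simp
        · rw [h]; simp only; exact hoff w hw
      exact ⟨_, key i (by omega), key (i + 1) hi⟩
  -- two tiles of colour 3: in the first two columns
  have hH : 0 < P.H := by unfold H; omega
  have ht1 : tile (P.board L P.Ds0 c s) (0, P.len none L + P.y) = some 3 := by
    have hD : P.Ds0[0]? = some (none, P.upR) := by rw [hM]; rfl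
    rw [tile_lt hD]
    unfold colc upR
    simp only
    rw [List.getElem?_append_right (by rw [length_stk]; omega), length_stk,
      List.getElem?_append_right (by simp)]
    simp
  obtain ⟨Ub, V, hUV⟩ := blk_split hn
  have hw1 : ∃ i : ℕ, P.Ds0[i]? = some (some 0, P.upG) := by
    have hmem : (some 0, P.upG) ∈ P.Ds0 := by
      unfold Ds0
      rw [List.replicate_succ, List.flatten_cons, hUV]
      simp
    obtain ⟨i, hi⟩ := List.getElem?_of_mem hmem
    exact ⟨i, hi⟩
  obtain ⟨i, hi⟩ := hw1
  have ht2 : tile (P.board L P.Ds0 c s) (i, P.len (some 0) L) = some 3 := by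
    rw [tile_lt hi]
    unfold colc upG
    simp only
    rw [List.getElem?_append_right (by rw [length_stk]), length_stk, Nat.sub_self,
      List.getElem?_replicate, if_pos hH]
  have hne : ((0 : ℕ), P.len none L + P.y) ≠ (i, P.len (some 0) L) := by
    intro h
    have : i = 0 := (Prod.ext_iff.1 h).1.symm
    rw [this, hM] at hi
    simp at hi
  have hclick := stage hne ht1 ht2 (fun q' hq' => hconn _ _ ht1 hq')
  have eL : L.filter (fun j => decide (j % 2 ≠ 3)) = L := by
    rw [List.filter_eq_self]
    intro x _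
    simp only [ne_eq, decide_eq_true_eq]
    omega
  have e1 : (c && decide ((3 : ℕ) ≠ 2)) = c := by simp
  have e2 : (s && decide ((3 : ℕ) ≠ 0)) = s := by simp
  rw [eL, e1, e2] at hclick
  have hy : P.y ≠ 0 := by unfold y; omega
  have f1 : P.upR.filter (fun u => decide (u ≠ 3)) = List.replicate P.y 4 := by
    unfold upR
    rw [List.filter_append, List.filter_eq_self.2]
    · simp
    · intro x hx
      rw [List.eq_of_mem_replicate hx]; simp
  have f2 : P.upG.filter (fun u => decide (u ≠ 3)) = [] := by
    unfold upG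
    rw [List.filter_eq_nil_iff]
    intro x hx
    rw [List.eq_of_mem_replicate hx]; simp
  refine ⟨_, hclick, ?_, ?_⟩
  · rw [List.mem_filter]
    refine ⟨?_, ?_⟩
    · rw [List.mem_map]
      exact ⟨(none, P.upR), by rw [hM]; exact List.mem_cons_self, by simp only [f1]⟩
    · simpa using colc_ne (P := P) (L := L) (D := (none, List.replicate P.y 4)) (by simpa using hy)
  · intro D hD
    obtain ⟨D', hD', rfl⟩ := List.mem_map.1 (List.mem_filter.1 hD).1
    rcases mem_Ds0 hD' with rfl | ⟨w, -, rfl⟩
    · left; simp only [f1]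
    · right; exact ⟨w, by simp only [f2]⟩

/-- property of the columns after the first stage -/
def Two (P : Par) (Ds : List (Option ℕ × List ℕ)) : Prop :=
  (none, List.replicate P.y 4) ∈ Ds ∧
    ∀ D ∈ Ds, D = (none, List.replicate P.y 4) ∨ ∃ w, D = (some w, [])

theorem Two.up (h : Two P Ds) : ∀ D ∈ Ds, ∀ u ∈ D.2, u = 4 := by
  intro D hD u hu
  rcases h.2 D hD with rfl | ⟨w, rfl⟩
  · exact List.eq_of_mem_replicate hu
  · simp at hu

theorem y_pos : 2 ≤ P.y ∨ P.N = 0 := by
  unfold y H
  omega

theorem Two.filter (h : Two P Ds) (hN : 0 < P.N) (L : List ℕ) :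
    Two P (Ds.filter (fun D => P.colc L D ≠ [])) := by
  refine ⟨?_, fun D hD => h.2 D (List.mem_filter.1 hD).1⟩
  rw [List.mem_filter]
  refine ⟨h.1, ?_⟩
  have hy : P.y ≠ 0 := by unfold y; omega
  simpa using colc_ne (P := P) (L := L) (D := (none, List.replicate P.y 4)) (by simpa using hy)

theorem stage2 (h : Two P Ds) (hN : 0 < P.N) :
    ∃ Ds', Click (P.board L Ds true true) (P.board L Ds' false true) ∧ Two P Ds' := by
  have hup2 : ∀ D ∈ Ds, ∀ u ∈ D.2, u ≠ 2 := by
    intro D hD u hu
    have := h.up D hD u hu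
    omega
  have hpos : ∀ q, tile (P.board L Ds true true) q = some 2 → q.1 = Ds.length ∧ q.2 < 2 := by
    intro q hq
    rcases tile_cases hq with ⟨D, k1, k2⟩ | ⟨i, col, k1, k2, k3⟩
    · have := lt_of_stk (stk_of_colc (hup2 D (List.mem_of_getElem? k1)) k2)
      omega
    · rcases tailc_cases k2 with ⟨-, k5, k6⟩ | ⟨-, k4, -⟩
      · subst k5 k6
        refine ⟨k1, ?_⟩
        have := (List.getElem?_eq_some_iff.1 k3).1
        simpa using this
      · rw [k4] at k3
        have := List.eq_of_mem_replicate (List.mem_of_getElem? k3)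
        omega
  have hclick := stage (P := P) (L := L) (Ds := Ds) (c := true) (s := true) (t := 2)
    (p := (Ds.length, 0)) (q := (Ds.length, 1)) (by simp) (tile_two rfl (by omega))
    (tile_two rfl (by omega)) (by
      intro q' hq'
      obtain ⟨q1, q2⟩ := hpos q' hq'
      have e2 : q' = (Ds.length, q'.2) := Prod.ext q1 rfl
      rw [e2]
      refine conn_intervals (t := 2) (lo := Ds.length) (hi := Ds.length + 1)
        (a := fun _ => 0) (b := fun _ => 2) ?_ ?_ le_rfl (by omega) (Nat.zero_le _) (by omega)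
        le_rfl (by omega) (Nat.zero_le _) q2
      · intro i hi1 hi2 r _ hr
        obtain rfl : i = Ds.length := by omega
        exact tile_two rfl hr
      · intro i hi1 hi2; omega)
  have eL : L.filter (fun j => decide (j % 2 ≠ 2)) = L := by
    rw [List.filter_eq_self]
    intro x _
    simp only [ne_eq, decide_eq_true_eq]
    omega
  rw [eL, up_filter hup2] at hclick
  exact ⟨_, by simpa using hclick, h.filter hN L⟩

theorem stage0 (h : Two P Ds) (hN : 0 < P.N) (hL : L.Sublist (List.range (2 * P.N))) :
    ∃ Ds', Click (P.board L Ds false true)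
      (P.board (L.filter (fun j => decide (j % 2 ≠ 0))) Ds' false false) ∧ Two P Ds' := by
  have hup0 : ∀ D ∈ Ds, ∀ u ∈ D.2, u ≠ 0 := by
    intro D hD u hu
    have := h.up D hD u hu
    omega
  have hsp : ∀ r, r < P.Zs → tile (P.board L Ds false true) (Ds.length, r) = some 0 := by
    intro r hr
    have h1 : (P.board L Ds false true)[Ds.length + 0]? = some (List.replicate P.Zs 0) := by
      rw [board_ge]; rfl
    rw [add_zero] at h1
    rw [tile_eq h1, List.getElem?_replicate, if_pos hr]
  have hZs : 2 ≤ P.Zs := by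
    unfold Zs y; omega
  have t0 := hsp 0 (by omega)
  have t1 := hsp 1 (by omega)
  have hclick := stage (P := P) (L := L) (Ds := Ds) (c := false) (s := true) (t := 0)
    (p := (Ds.length, 0)) (q := (Ds.length, 1)) (by simp) t0 t1 (fun q' hq' =>
      (spine_conn hL hup0 hq').symm)
  rw [up_filter hup0] at hclick
  exact ⟨_, by simpa using hclick, h.filter hN _⟩

theorem stage1 (h : Two P Ds) (hN : 0 < P.N) (hne : L ≠ []) (hodd : ∀ x ∈ L, x % 2 = 1) :
    ∃ Ds', Click (P.board L Ds false false) (P.board [] Ds' false false) ∧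
      Ds' ≠ [] ∧ ∀ D ∈ Ds', D = (none, List.replicate P.y 4) := by
  have hup1 : ∀ D ∈ Ds, ∀ u ∈ D.2, u ≠ 1 := by
    intro D hD u hu
    have := h.up D hD u hu
    omega
  have hpos : ∀ q, tile (P.board L Ds false false) q = some 1 →
      q.1 < Ds.length ∧ q.2 < P.len (tyOf Ds q.1) L := by
    intro q hq
    rcases tile_cases hq with ⟨D, k1, k2⟩ | ⟨i, col, k1, k2, k3⟩
    · refine ⟨(List.getElem?_eq_some_iff.1 k1).1, ?_⟩
      rw [tyOf_eq k1]
      have := (List.getElem?_eq_some_iff.1 (stk_of_colc (hup1 D (List.mem_of_getElem? k1)) k2)).1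
      rwa [length_stk] at this
    · simp [tailc] at k2
  have htile : ∀ i < Ds.length, ∀ r < P.len (tyOf Ds i) L,
      tile (P.board L Ds false false) (i, r) = some 1 := by
    intro i hi r hr
    have hD : Ds[i]? = some Ds[i] := List.getElem?_eq_getElem hi
    rw [tile_lt hD]
    rw [tyOf_eq hD] at hr
    unfold colc
    rw [List.getElem?_append_left (by rw [length_stk]; exact hr)]
    exact stk_run hodd hr
  have hlen : ∀ ty, 2 ≤ P.len ty L := by
    intro ty
    obtain ⟨x, M, rfl⟩ := List.exists_cons_of_ne_nil hne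
    rw [len_cons]
    have := Z_le_th (P := P) ty x
    unfold Z at this
    omega
  have hDs : 0 < Ds.length := List.length_pos_of_mem h.1
  have hclick := stage (P := P) (L := L) (Ds := Ds) (c := false) (s := false) (t := 1)
    (p := (0, 0)) (q := (0, 1)) (by simp)
    (htile 0 hDs 0 (by have := hlen (tyOf Ds 0); omega))
    (htile 0 hDs 1 (by have := hlen (tyOf Ds 0); omega)) (by
      intro q' hq'
      obtain ⟨h1, h2⟩ := hpos q' hq'
      refine conn_intervals (t := 1) (lo := 0) (hi := Ds.length)
        (a := fun _ => 0) (b := fun i => P.len (tyOf Ds i) L) ?_ ?_ le_rfl hDs le_rfl ?_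
        (Nat.zero_le _) h1 (Nat.zero_le _) h2
      · intro i _ hi r _ hr
        exact htile i hi r hr
      · intro i _ hi
        have e1 := hlen (tyOf Ds i)
        have e2 := hlen (tyOf Ds (i + 1))
        exact ⟨0, ⟨le_rfl, by omega⟩, le_rfl, by omega⟩
      · have := hlen (tyOf Ds 0)
        omega)
  have eL : L.filter (fun j => decide (j % 2 ≠ 1)) = [] := by
    rw [List.filter_eq_nil_iff]
    intro x hx
    simp [hodd x hx]
  rw [eL, up_filter hup1] at hclick
  have h2 := h.filter hN []
  refine ⟨_, by simpa using hclick, ?_, ?_⟩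
  · have h3 := h2.1
    intro hnil
    simp only [ne_eq, decide_not] at h3 hnil
    rw [hnil] at h3
    simp at h3
  · intro D hD
    have hD' := hD
    rw [List.mem_filter] at hD
    rcases h.2 D hD.1 with h3 | ⟨w, h3⟩
    · exact h3
    · exfalso
      rw [h3] at hD
      simp [colc, stk] at hD

theorem stage4 (hDs : Ds ≠ []) (hN : 0 < P.N) (h : ∀ D ∈ Ds, D = (none, List.replicate P.y 4)) :
    Click (P.board [] Ds false false) [] := by
  have hy : 2 ≤ P.y := by unfold y; omega
  have htile : ∀ i < Ds.length, ∀ r < P.y, tile (P.board [] Ds false false) (i, r) = some 4 := by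
    intro i hi r hr
    have hD : Ds[i]? = some Ds[i] := List.getElem?_eq_getElem hi
    rw [tile_lt hD, h _ (List.getElem_mem hi)]
    simp [colc, stk, hr]
  have hpos : ∀ q t, tile (P.board [] Ds false false) q = some t → q.1 < Ds.length ∧ q.2 < P.y := by
    intro q t hq
    rcases tile_cases hq with ⟨D, k1, k2⟩ | ⟨i, col, k1, k2, k3⟩
    · refine ⟨(List.getElem?_eq_some_iff.1 k1).1, ?_⟩
      rw [h D (List.mem_of_getElem? k1)] at k2
      have := (List.getElem?_eq_some_iff.1 k2).1
      simpa [colc, stk] using this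
    · simp [tailc] at k2
  have hDs' : 0 < Ds.length := List.length_pos_iff.2 hDs
  have hclick := click_color (B := P.board [] Ds false false) (t := 4) (p := (0, 0)) (q := (0, 1))
    (by simp) (htile 0 hDs' 0 (by omega)) (htile 0 hDs' 1 (by omega)) (by
      intro q' hq'
      obtain ⟨h1, h2⟩ := hpos q' 4 hq'
      refine conn_intervals (t := 4) (lo := 0) (hi := Ds.length)
        (a := fun _ => 0) (b := fun _ => P.y) ?_ ?_ le_rfl hDs' le_rfl (by omega)
        (Nat.zero_le _) h1 (Nat.zero_le _) h2
      · intro i _ hi r _ hr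
        exact htile i hi r hr
      · intro i _ hi
        exact ⟨0, ⟨le_rfl, by omega⟩, le_rfl, by omega⟩)
  have e : ((P.board [] Ds false false).map (List.filter (fun s => decide (s ≠ 4)))).filter
      (fun c => c ≠ []) = [] := by
    rw [List.filter_eq_nil_iff]
    intro col hcol
    rw [List.mem_map] at hcol
    obtain ⟨col', h1, rfl⟩ := hcol
    unfold board tailc at h1
    simp only [Bool.false_eq_true, if_false, List.append_nil, List.mem_map] at h1
    obtain ⟨D, h2, rfl⟩ := h1
    rw [h D h2]
    simp [colc, stk]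
  rw [e] at hclick
  exact hclick

/-- **Completeness.** -/
theorem complete (hn : 0 < P.n) {vs : List ℕ} (hvs : vs.Nodup) (hlt : ∀ v ∈ vs, v < P.n)
    (hcard : vs.length ≤ P.k) (hdom : ∀ w < P.n, ∃ v ∈ vs, P.adj w v = true) :
    Elim (P.board (List.range (2 * P.N)) P.Ds0 true true, P.K) := by
  have hN : 0 < P.N := Nat.mul_pos hn (by omega)
  refine ⟨[], ?_, rfl⟩
  have r1 := click_levels hn vs hvs hlt
  obtain ⟨Ds1, c1, h1, h1'⟩ := stage3 (P := P) (L := P.Lv vs) (c := true) (s := true) hn
    (fun w hw => Lv_offset hn hvs hlt hcard (hdom w hw))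
  obtain ⟨Ds2, c2, h2⟩ := stage2 (L := P.Lv vs) (P := P) (Ds := Ds1) ⟨h1, h1'⟩ hN
  obtain ⟨Ds3, c3, h3⟩ := stage0 h2 hN (Lv_sub vs)
  have hodd : ∀ x ∈ (P.Lv vs).filter (fun j => decide (j % 2 ≠ 0)), x % 2 = 1 := by
    intro x hx
    have := (List.mem_filter.1 hx).2
    simp only [ne_eq, decide_eq_true_eq] at this
    omega
  have hne : (P.Lv vs).filter (fun j => decide (j % 2 ≠ 0)) ≠ [] := by
    have : 2 * P.N - 1 ∈ (P.Lv vs).filter (fun j => decide (j % 2 ≠ 0)) := by
      rw [List.mem_filter]
      refine ⟨Lv_last hN, ?_⟩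
      simp only [ne_eq, decide_eq_true_eq]
      omega
    exact List.ne_nil_of_mem this
  obtain ⟨Ds4, c4, h4, h4'⟩ := stage1 h3 hN hne hodd
  have c5 := stage4 h4 hN h4'
  have r2 : Reaches 5 (P.board (P.Lv vs) P.Ds0 true true) [] :=
    Reaches.step c1 (Reaches.step c2 (Reaches.step c3 (Reaches.step c4 (Reaches.step c5
      (Reaches.refl 0 _)))))
  exact (r1.trans r2).mono (by
    have : P.K = P.k + 5 := rfl
    simp only
    omega)

end Par

end Pool.Agent.R538.Clk
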