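import Mathlib

/-!
# Clickomania boards, clicks, and the two parameterized problems

A board is a list of columns, a column is the list of the colours of its tiles from bottom to top.
-/

namespace Pool.Agent.R538.Clk

/-- A board: a finite sequence of columns, each a finite sequence of coloured tiles. -/
abbrev Board : Type := List (List ℕ)

/-- The colour of the tile at position `(column, row)`, if there is such a tile. -/
def tile (B : Board) (p : ℕ × ℕ) : Option ℕ := (B[p.1]?).bind (fun col => col[p.2]?)

/-- Horizontal or vertical neighbours. -/
def Adj (p q : ℕ × ℕ) : Prop :=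
  (p.1 = q.1 ∧ (p.2 + 1 = q.2 ∨ q.2 + 1 = p.2)) ∨ (p.2 = q.2 ∧ (p.1 + 1 = q.1 ∨ q.1 + 1 = p.1))

/-- Neighbouring tiles of the same colour. -/
def Link (B : Board) (p q : ℕ × ℕ) : Prop := Adj p q ∧ ∃ t, tile B p = some t ∧ tile B q = some t

/-- `q` lies in the group of `p`. -/
def Grp (B : Board) (p q : ℕ × ℕ) : Prop := Relation.ReflTransGen (Link B) p q

open Classical in
/-- The tiles of a column at the rows that do not satisfy `S`, in the same order. -/
noncomputable def keepCol : (ℕ → Prop) → List ℕ → List ℕ
  | _, [] => []
  | S, t :: c => if S 0 then keepCol (fun j => S (j + 1)) c else t :: keepCol (fun j => S (j + 1)) c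

/-- Remove the tiles at the positions in `S`, let the others fall down, delete empty columns. -/
noncomputable def remove (B : Board) (S : ℕ × ℕ → Prop) : Board :=
  (B.mapIdx (fun i c => keepCol (fun j => S (i, j)) c)).filter (fun c => c ≠ [])

/-- A click: choose a group with at least two tiles (it contains `p` and some `q ≠ p`) and
remove it. -/
inductive Click (B : Board) : Board → Prop
  | mk (p q : ℕ × ℕ) (hne : p ≠ q) (h : Grp B p q) : Click B (remove B (Grp B p))

/-- `Reaches k B B'`: at most `k` clicks lead from `B` to `B'`. -/
inductive Reaches : ℕ → Board → Board → Prop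
  | refl (k : ℕ) (B : Board) : Reaches k B B
  | step {k : ℕ} {B B' B'' : Board} : Click B B' → Reaches k B' B'' → Reaches (k + 1) B B''

/-- Number of tiles of a board. -/
def tiles (B : Board) : ℕ := (B.map List.length).sum

/-- `k`-Click Elimination-Variant Clickomania: instances `(B, k)`; can the board `B` be emptied
(no tiles left) with at most `k` clicks? -/
def Elim (x : Board × ℕ) : Prop := ∃ B', Reaches x.2 x.1 B' ∧ tiles B' = 0

/-- `k`-Click Score-Variant Clickomania: instances `(B, k, S)`; can a sequence of at most `k`
clicks, each removed tile scoring `1`, reach a total score greater than `S`? -/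
def Score (x : Board × ℕ × ℕ) : Prop :=
  ∃ B', Reaches x.2.1 x.1 B' ∧ x.2.2 < tiles x.1 - tiles B'

end Pool.Agent.R538.Clk
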