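import Pool.Agent.R538.Clk.Run

/-!
# Disjoint copies of a block in a list; colour classes; existence of runs
-/

namespace Pool.Agent.R538.Clk

/-- `Has blk q l`: the list `l` contains `q` disjoint copies of `blk` as infixes. -/
inductive Has {α : Type} (blk : List α) : ℕ → List α → Prop
  | zero (l : List α) : Has blk 0 l
  | succ (f l : List α) (q : ℕ) : Has blk q l → Has blk (q + 1) (f ++ blk ++ l)

namespace Has

variable {α : Type} {blk : List α}

theorem mono {q q' : ℕ} {l : List α} (h : Has blk q l) (hq : q' ≤ q) : Has blk q' l := by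
  induction h generalizing q' with
  | zero l => obtain rfl : q' = 0 := by omega
              exact Has.zero _
  | succ f l q _ ih =>
    cases q' with
    | zero => exact Has.zero _
    | succ q' => exact Has.succ _ _ _ (ih (by omega))

theorem app {q₁ q₂ : ℕ} {l₁ l₂ : List α} (h₁ : Has blk q₁ l₁) (h₂ : Has blk q₂ l₂) :
    Has blk (q₁ + q₂) (l₁ ++ l₂) := by
  induction h₁ with
  | zero l =>
    rw [zero_add]
    cases h₂ with
    | zero => exact Has.zero _
    | succ f l' q h =>
      have : l ++ (f ++ blk ++ l') = (l ++ f) ++ blk ++ l' := by simp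
      rw [this]
      exact Has.succ _ _ _ h
  | succ f l q _ ih =>
    have e : f ++ blk ++ l ++ l₂ = f ++ blk ++ (l ++ l₂) := by simp
    rw [e, show q + 1 + q₂ = (q + q₂) + 1 by ring]
    exact Has.succ _ _ _ ih

theorem filt {q : ℕ} {l : List α} (h : Has blk q l) (p : α → Bool) (hp : ∀ x ∈ blk, p x = true) :
    Has blk q (l.filter p) := by
  induction h with
  | zero l => exact Has.zero _
  | succ f l q _ ih =>
    rw [List.filter_append, List.filter_append, List.filter_eq_self.2 hp]
    exact Has.succ _ _ _ ih

theorem one {l : List α} (h : Has blk 1 l) : ∃ f g, l = f ++ blk ++ g := by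
  cases h with
  | succ f l q h => exact ⟨f, l, rfl⟩

theorem split {q : ℕ} {w : List α} (h : Has blk q w) : ∀ u v : List α, w = u ++ v →
    ∃ q₁ q₂, q ≤ q₁ + q₂ + 1 ∧ Has blk q₁ u ∧ Has blk q₂ v := by
  induction h with
  | zero l => intro u v _; exact ⟨0, 0, by omega, Has.zero _, Has.zero _⟩
  | succ f l q h ih =>
    intro u v e
    rcases List.append_eq_append_iff.1 e with ⟨a, h1, h2⟩ | ⟨a, h1, h2⟩
    · -- u = (f ++ blk) ++ a, l = a ++ v
      obtain ⟨q₁, q₂, h3, h4, h5⟩ := ih a v h2
      refine ⟨q₁ + 1, q₂, by omega, ?_, h5⟩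
      rw [h1]
      exact Has.succ _ _ _ h4
    · -- f ++ blk = u ++ a, v = a ++ l
      refine ⟨0, q, by omega, Has.zero _, ?_⟩
      rw [h2]
      have := Has.app (Has.zero (blk := blk) a) h
      rwa [zero_add] at this

end Has

namespace Par

variable {P : Par} {L : List ℕ} {Ds : List (Option ℕ × List ℕ)} {c s : Bool} {t : ℕ}

theorem exists_entry {ty : Option ℕ} {L : List ℕ} {r t : ℕ} (h : (P.stk ty L)[r]? = some t) :
    ∃ U x V, L = U ++ x :: V ∧ x % 2 = t ∧ P.len ty U ≤ r ∧ r < P.len ty (U ++ [x]) := by
  induction L generalizing r with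
  | nil => simp [stk] at h
  | cons x L ih =>
    rw [stk_cons] at h
    by_cases hr : r < P.th ty x
    · rw [List.getElem?_append_left (by simpa using hr)] at h
      have h4 := List.eq_of_mem_replicate (List.mem_of_getElem? h)
      exact ⟨[], x, L, rfl, h4.symm, by simp [len], by simpa [len] using hr⟩
    · rw [List.getElem?_append_right (by simp; omega), List.length_replicate] at h
      obtain ⟨U, z, V, h1, h2, h3, h4⟩ := ih h
      refine ⟨x :: U, z, V, by rw [h1]; rfl, h2, ?_, ?_⟩
      · rw [len_cons]; omega
      · rw [List.cons_append, len_cons]; omega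

theorem split_head (t : ℕ) (V : List ℕ) : ∃ V₁ V₂, V = V₁ ++ V₂ ∧ (∀ x ∈ V₁, x % 2 = t) ∧
    ∀ x, V₂.head? = some x → x % 2 ≠ t := by
  induction V with
  | nil => exact ⟨[], [], rfl, by simp, by simp⟩
  | cons z V ih =>
    by_cases hz : z % 2 = t
    · obtain ⟨V₁, V₂, h1, h2, h3⟩ := ih
      refine ⟨z :: V₁, V₂, by rw [h1]; rfl, ?_, h3⟩
      intro x hx
      rcases List.mem_cons.1 hx with h | h
      · rw [h]; exact hz
      · exact h2 x h
    · refine ⟨[], z :: V, rfl, by simp, ?_⟩
      intro x hx
      simp only [List.head?_cons, Option.some.injEq] at hx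
      rw [← hx]; exact hz

theorem split_last (t : ℕ) (U : List ℕ) : ∃ U₁ U₂, U = U₁ ++ U₂ ∧ (∀ x ∈ U₂, x % 2 = t) ∧
    ∀ x, U₁.getLast? = some x → x % 2 ≠ t := by
  obtain ⟨V₁, V₂, h1, h2, h3⟩ := split_head t U.reverse
  refine ⟨V₂.reverse, V₁.reverse, ?_, ?_, ?_⟩
  · have := congrArg List.reverse h1
    simpa using this
  · intro x hx; exact h2 x (List.mem_reverse.1 hx)
  · intro x hx
    rw [List.getLast?_reverse] at hx
    exact h3 x hx

theorem exists_run (hL : L.Sublist (List.range (2 * P.N))) {ty : Option ℕ} {r : ℕ}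
    (h : (P.stk ty L)[r]? = some t) :
    ∃ L₁ Rn L₂, L = L₁ ++ Rn ++ L₂ ∧ IsRun P L₁ Rn L₂ t ∧ P.len ty L₁ ≤ r ∧
      r < P.len ty (L₁ ++ Rn) := by
  obtain ⟨U, x, V, h1, h2, h3, h4⟩ := exists_entry h
  obtain ⟨U₁, U₂, g1, g2, g3⟩ := split_last t U
  obtain ⟨V₁, V₂, e1, e2, e3⟩ := split_head t V
  have hL' : L = U₁ ++ (U₂ ++ x :: V₁) ++ V₂ := by rw [h1, g1, e1]; simp
  refine ⟨U₁, U₂ ++ x :: V₁, V₂, hL', ⟨?_, by simp, ?_, g3, e3⟩, ?_, ?_⟩
  · rw [← hL']; exact hL
  · intro z hz
    rcases List.mem_append.1 hz with h | h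
    · exact g2 z h
    · rcases List.mem_cons.1 h with h | h
      · rw [h]; exact h2
      · exact e2 z h
  · rw [g1, len_append] at h3; omega
  · rw [g1] at h4
    have : U₁ ++ (U₂ ++ x :: V₁) = (U₁ ++ U₂ ++ [x]) ++ V₁ := by simp
    rw [this, len_append]
    omega

/-- tiles of colour `0` or `1` in a stack column lie in the stack -/
theorem stk_of_colc {D : Option ℕ × List ℕ} {r : ℕ} (hup : ∀ u ∈ D.2, u ≠ t)
    (h : (P.colc L D)[r]? = some t) : (P.stk D.1 L)[r]? = some t := by
  unfold colc at h
  by_cases hr : r < (P.stk D.1 L).length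
  · rwa [List.getElem?_append_left hr] at h
  · rw [List.getElem?_append_right (not_lt.1 hr)] at h
    exact absurd rfl (hup t (List.mem_of_getElem? h))

/-- When the separator column is gone, all tiles of colour `0` are connected to the spine. -/
theorem spine_conn (hL : L.Sublist (List.range (2 * P.N))) (hup : ∀ D ∈ Ds, ∀ u ∈ D.2, u ≠ 0)
    {q : ℕ × ℕ} (hq : tile (P.board L Ds false true) q = some 0) :
    Grp (P.board L Ds false true) q (Ds.length, 0) := by
  have hZ := Zs_pos (P := P)
  have hsp : ∀ r, r < P.Zs → tile (P.board L Ds false true) (Ds.length, r) = some 0 := by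
    intro r hr
    have h1 : (P.board L Ds false true)[Ds.length + 0]? = some (List.replicate P.Zs 0) := by
      rw [board_ge]; rfl
    rw [add_zero] at h1
    rw [tile_eq h1, List.getElem?_replicate, if_pos hr]
  rcases tile_cases hq with ⟨D, h1, h2⟩ | ⟨i, col, h1, h2, h3⟩
  · have hD := List.mem_of_getElem? h1
    obtain ⟨L₁, Rn, L₂, e1, hrun, e2, e3⟩ := exists_run hL (stk_of_colc (hup D hD) h2)
    subst e1
    have hl := (List.getElem?_eq_some_iff.1 h1).1
    have hsub : (L₁ ++ Rn).Sublist (List.range (2 * P.N)) :=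
      (List.sublist_append_left _ _).trans hL
    refine conn_intervals (t := 0) (lo := 0) (hi := Ds.length + 1)
      (a := fun i => if i < Ds.length then P.len (tyOf Ds i) L₁ else 0)
      (b := fun i => if i < Ds.length then P.len (tyOf Ds i) (L₁ ++ Rn) else P.Zs) ?_ ?_
      (Nat.zero_le _) (by omega) ?_ ?_ (Nat.zero_le _) (by simp) ?_ ?_
    · intro i _ hi r hr1 hr2
      by_cases hi' : i < Ds.length
      · have hD : Ds[i]? = some Ds[i] := List.getElem?_eq_getElem hi'
        rw [tile_lt hD]
        simp only [if_pos hi', tyOf_eq hD] at hr1 hr2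
        exact colc_run hrun.col hr1 hr2
      · obtain rfl : i = Ds.length := by omega
        simp only [if_neg hi'] at hr2
        exact hsp r hr2
    · intro i _ hi
      have hi1 : i < Ds.length := by omega
      simp only [if_pos hi1]
      by_cases hi2 : i + 1 < Ds.length
      · simp only [if_pos hi2]
        have e1 := hrun.off_low (tyOf Ds i) (tyOf Ds (i + 1))
        have e2 := hrun.off_low (tyOf Ds (i + 1)) (tyOf Ds i)
        have e3 := hrun.len_run (tyOf Ds i)
        have e4 := hrun.len_run (tyOf Ds (i + 1))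
        refine ⟨max (P.len (tyOf Ds i) L₁) (P.len (tyOf Ds (i + 1)) L₁), ⟨le_max_left _ _, ?_⟩,
          le_max_right _ _, ?_⟩
        · rw [max_lt_iff]; constructor <;> omega
        · rw [max_lt_iff]; constructor <;> omega
      · simp only [if_neg hi2]
        have e3 := hrun.len_run (tyOf Ds i)
        have e5 := len_le_Zs hsub (tyOf Ds i)
        have e6 := hrun.Z_pos
        exact ⟨P.len (tyOf Ds i) L₁, ⟨le_rfl, by omega⟩, Nat.zero_le _, by omega⟩
    · simp only [if_pos hl, tyOf_eq h1]; exact e2
    · simp only [if_pos hl, tyOf_eq h1]; exact e3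
    · simp
    · simpa using hZ
  · rcases tailc_cases h2 with ⟨h4, -, -⟩ | ⟨-, h5, h6⟩
    · exact absurd h4 (by simp)
    · have hi : i = 0 := by
        rcases h6 with ⟨h7, -⟩ | ⟨-, h7⟩
        · exact absurd h7 (by simp)
        · exact h7
      subst hi
      rw [h5] at h3
      have h7 : q.2 < P.Zs := by
        have := (List.getElem?_eq_some_iff.1 h3).1
        simpa using this
      have h8 : q = (Ds.length, q.2) := Prod.ext h1 rfl
      rw [h8]
      refine conn_intervals (t := 0) (lo := Ds.length) (hi := Ds.length + 1) (a := fun _ => 0)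
        (b := fun _ => P.Zs) ?_ ?_ le_rfl (by omega) (Nat.zero_le _) h7 le_rfl (by omega)
        (Nat.zero_le _) hZ
      · intro i hi1 hi2 r _ hr
        obtain rfl : i = Ds.length := by omega
        exact hsp r hr
      · intro i hi1 hi2; omega

theorem filter_stk (ty : Option ℕ) (L : List ℕ) (t : ℕ) :
    (P.stk ty L).filter (fun u => decide (u ≠ t)) = P.stk ty (L.filter (fun j => decide (j % 2 ≠ t))) := by
  induction L with
  | nil => rfl
  | cons j L ih =>
    rw [stk_cons, List.filter_append, ih, List.filter_cons]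
    by_cases h : j % 2 = t
    · rw [if_neg (by simp [h])]
      rw [List.filter_eq_nil_iff.2]
      · rfl
      · intro a ha
        rw [List.eq_of_mem_replicate ha]
        simp [h]
    · rw [if_pos (by simp [h]), stk_cons]
      congr 1
      rw [List.filter_eq_self]
      intro a ha
      rw [List.eq_of_mem_replicate ha]
      simp [h]

/-- removing all tiles of a colour -/
theorem color_filter (t : ℕ) :
    ((P.board L Ds c s).map (List.filter (fun u => decide (u ≠ t)))).filter (fun col => col ≠ [])
      = P.board (L.filter (fun j => decide (j % 2 ≠ t)))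
        ((Ds.map (fun D => (D.1, D.2.filter (fun u => decide (u ≠ t))))).filter
          (fun D => P.colc (L.filter (fun j => decide (j % 2 ≠ t))) D ≠ []))
        (c && decide (t ≠ 2)) (s && decide (t ≠ 0)) := by
  unfold board
  rw [List.map_append, List.filter_append]
  congr 1
  · rw [List.map_map]
    have e : (List.filter (fun u => decide (u ≠ t))) ∘ (P.colc L)
        = (P.colc (L.filter (fun j => decide (j % 2 ≠ t)))) ∘
          (fun D : Option ℕ × List ℕ => (D.1, D.2.filter (fun u => decide (u ≠ t)))) := by
      funext D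
      simp only [Function.comp, colc, List.filter_append, filter_stk]
    rw [e, ← List.map_map, List.filter_map]
    rfl
  · have hZ := Zs_pos (P := P)
    have e1 : List.filter (fun u => decide (u ≠ t)) (List.replicate P.Zs 0)
        = if t = 0 then [] else List.replicate P.Zs 0 := by
      split_ifs with h
      · rw [List.filter_eq_nil_iff]
        intro a ha
        rw [List.eq_of_mem_replicate ha]
        simp [h]
      · rw [List.filter_eq_self]
        intro a ha
        rw [List.eq_of_mem_replicate ha]
        simp [Ne.symm h]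
    have e2 : List.filter (fun u => decide (u ≠ t)) [2, 2] = if t = 2 then [] else [2, 2] := by
      split_ifs with h
      · simp [h]
      · simp [Ne.symm h]
    have e3 : List.replicate P.Zs 0 ≠ [] := by
      intro h
      have := congrArg List.length h
      simp at this
      omega
    unfold tailc
    cases c <;> cases s <;> simp only [if_true, if_false, Bool.false_eq_true, List.append_nil,
      List.nil_append, List.map_nil, List.map_cons, List.filter_nil, Bool.true_and, Bool.false_and,
      List.map_append, List.filter_append, e1, e2]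
    all_goals by_cases h0 : t = 0 <;> by_cases h2 : t = 2 <;> simp [h0, h2, e3]

end Par

end Pool.Agent.R538.Clk
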