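import Pool.Agent.R538.Clk.Comp
import Pool.Agent.H633R2.CtrDefs
import Pool.Agent.H633R2.Fpt
import Pool.Agent.H671R2.PolyAuto

/-!
# The reduction from Dominating Set and its polynomial-time computability
-/

namespace Pool.Agent.R538.Clk

open Pool.Agent.NPC Pool.Agent.H633R2

/-- parameters from an instance of Dominating Set -/
def parOf (x : List (List Bool) × ℕ) : Par :=
  ⟨x.1.length, fun w u => decide (w = u) || (entry x.1 w u || entry x.1 u w), min x.2 x.1.length⟩

/-- the reduction -/
def red (x : List (List Bool) × ℕ) : Board × ℕ :=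
  if x.1.length = 0 then ([[2, 2]], 1)
  else ((parOf x).board (List.range (2 * (parOf x).N)) (parOf x).Ds0 true true, (parOf x).K)

theorem elim_trivial : Elim ([[2, 2]], 1) := by
  have ht : ∀ q t, tile [[2, 2]] q = some t → q.1 = 0 ∧ q.2 < 2 ∧ t = 2 := by
    intro q t hq
    obtain ⟨col, h1, h2⟩ := tile_some (i := q.1) (j := q.2) hq
    have h3 := (List.getElem?_eq_some_iff.1 h1).1
    simp only [List.length_cons, List.length_nil, zero_add, Nat.lt_one_iff] at h3
    rw [h3] at h1
    simp only [List.getElem?_cons_zero, Option.some.injEq] at h1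
    subst h1
    have h4 := (List.getElem?_eq_some_iff.1 h2).1
    have h5 := List.mem_of_getElem? h2
    simp at h4 h5
    exact ⟨h3, by omega, h5⟩
  have hc := click_color (B := [[2, 2]]) (t := 2) (p := (0, 0)) (q := (0, 1)) (by simp) rfl rfl (by
    intro q' hq'
    obtain ⟨h1, h2, -⟩ := ht q' 2 hq'
    refine conn_intervals (t := 2) (lo := 0) (hi := 1) (a := fun _ => 0) (b := fun _ => 2) ?_ ?_
      le_rfl (by omega) le_rfl (by omega) (Nat.zero_le _) (by omega) (Nat.zero_le _) h2
    · intro i _ hi r _ hr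
      obtain rfl : i = 0 := by omega
      interval_cases r <;> rfl
    · intro i _ hi; omega)
  exact ⟨[], by simpa using hc.one, rfl⟩

theorem red_iff (x : List (List Bool) × ℕ) : HasDomSet x ↔ Elim (red x) := by
  classical
  unfold red
  split_ifs with h0
  · refine ⟨fun _ => elim_trivial, fun _ => ⟨∅, by simp, fun w => ?_⟩⟩
    have := w.2
    omega
  · have hn : 0 < (parOf x).n := Nat.pos_of_ne_zero h0
    constructor
    · rintro ⟨S, hS, hdom⟩
      have hnd : (S.toList.map (fun v : Fin x.1.length => (v : ℕ))).Nodup :=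
        List.Nodup.map Fin.val_injective S.nodup_toList
      refine (parOf x).complete hn (vs := S.toList.map (fun v : Fin x.1.length => (v : ℕ))) hnd ?_ ?_ ?_
      · intro v hv
        obtain ⟨u, -, rfl⟩ := List.mem_map.1 hv
        exact u.2
      · rw [List.length_map, Finset.length_toList]
        have h1 : S.card ≤ x.1.length := by simpa using Finset.card_le_univ S
        exact le_min hS h1
      · intro w hw
        obtain ⟨v, hv, hvw⟩ := hdom ⟨w, hw⟩
        refine ⟨v, List.mem_map.2 ⟨v, Finset.mem_toList.2 hv, rfl⟩, ?_⟩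
        simp only [parOf, Bool.or_eq_true, decide_eq_true_eq]
        rcases hvw with h | h
        · left; rw [h]
        · right
          rcases h.2 with h1 | h1
          · exact Or.inr h1
          · exact Or.inl h1
    · intro h
      obtain ⟨D, hD, hdom⟩ := (parOf x).sound hn (by
        intro w _
        simp [parOf]) h
      refine ⟨Finset.univ.filter (fun v : Fin x.1.length => (v : ℕ) ∈ D), ?_, ?_⟩
      · have h1 : (Finset.univ.filter (fun v : Fin x.1.length => (v : ℕ) ∈ D)).card ≤ D.card :=
          Finset.card_le_card_of_injOn (fun v => (v : ℕ)) (fun v hv => by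
            simpa using hv) (fun a _ b _ hab => Fin.ext hab)
        exact h1.trans (hD.trans (min_le_left _ _))
      · intro w
        obtain ⟨v, hv, hvn, hadj⟩ := hdom w w.2
        refine ⟨⟨v, hvn⟩, by simpa using hv, ?_⟩
        simp only [parOf, Bool.or_eq_true, decide_eq_true_eq] at hadj
        by_cases hvw : v = w
        · left; exact Fin.ext hvw
        · right
          refine ⟨fun h' => hvw (congrArg Fin.val h'), ?_⟩
          rcases hadj with h1 | h1 | h1
          · exact absurd h1.symm hvw
          · exact Or.inr h1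
          · exact Or.inl h1

theorem score_iff {B : Board} {k : ℕ} (hB : 0 < tiles B) :
    Elim (B, k) ↔ Score (B, k, tiles B - 1) := by
  constructor
  · rintro ⟨B', h1, h2⟩
    exact ⟨B', h1, by simp only; omega⟩
  · rintro ⟨B', h1, h2⟩
    exact ⟨B', h1, by simp only at h2; omega⟩

theorem red_tiles (x : List (List Bool) × ℕ) : 0 < tiles (red x).1 := by
  unfold red
  split_ifs with h0
  · simp [tiles]
  · have hn : 0 < (parOf x).n := Nat.pos_of_ne_zero h0
    obtain ⟨M, hM⟩ := Par.Ds0_head hn
    unfold Par.board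
    rw [hM]
    simp only [tiles, List.map_cons, List.map_append, List.sum_append, List.sum_cons, Par.colc, Par.upR,
      List.length_append, List.length_singleton]
    omega

/-- the reduction for the score variant -/
def redS (x : List (List Bool) × ℕ) : Board × ℕ × ℕ := ((red x).1, (red x).2, tiles (red x).1 - 1)

theorem redS_iff (x : List (List Bool) × ℕ) : HasDomSet x ↔ Score (redS x) := by
  rw [red_iff, ← Prod.mk.eta (p := red x)]
  exact score_iff (red_tiles x)

/-! ### Polynomial time -/

section Pt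

variable {α : Type} [TEnc α]

theorem poly_replicate {β : Type} [TEnc β] {m : α → ℕ} {v : α → β} (hm : UPoly m)
    (hv : NPC.Poly v) : NPC.Poly (fun a => List.replicate (m a) (v a)) :=
  (NPC.Poly.map (F := fun a (_ : ℕ) => v a) hm.range
    (hv.comp (NPC.Poly.fst NPC.Poly.id))).congr fun a => by
    simp [List.map_const']

/-- instances of Dominating Set -/
abbrev X := List (List Bool) × ℕ

theorem un : UPoly (fun x : X => (parOf x).n) := UPoly.length (NPC.Poly.fst NPC.Poly.id)

theorem uk : UPoly (fun x : X => (parOf x).k) :=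
  UPoly.of_le (n := fun x : X => x.1.length)
    (NPC.Poly.min (NPC.Poly.snd NPC.Poly.id) (NPC.Poly.length (NPC.Poly.fst NPC.Poly.id)))
    (UPoly.length (NPC.Poly.fst NPC.Poly.id)) (fun x => min_le_right _ _)

theorem uN : UPoly (fun x : X => (parOf x).N) := UPoly.mul un (UPoly.add uk (UPoly.const 2))
theorem uH : UPoly (fun x : X => (parOf x).H) := UPoly.add uk (UPoly.const 1)
theorem u2N : UPoly (fun x : X => 2 * (parOf x).N) := UPoly.mul (UPoly.const 2) uN
theorem uy : UPoly (fun x : X => (parOf x).y) := UPoly.add u2N uH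
theorem uZ : UPoly (fun x : X => (parOf x).Z) := UPoly.add u2N (UPoly.const 1)
theorem uK : UPoly (fun x : X => (parOf x).K) := UPoly.add uk (UPoly.const 5)
theorem uZs : UPoly (fun x : X => (parOf x).Zs) :=
  UPoly.add (UPoly.add (UPoly.mul u2N (UPoly.add uZ (UPoly.const 1))) uy) (UPoly.const 1)

theorem poly_hit : NPC.Poly (fun p : X × (ℕ × ℕ) => (parOf p.1).hit p.2.1 p.2.2) := by
  have hn : NPC.Poly (fun p : X × (ℕ × ℕ) => p.1.1.length) := by fun_prop
  have hj : NPC.Poly (fun p : X × (ℕ × ℕ) => p.2.2 / 2 % p.1.1.length) :=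
    NPC.Poly.mod (NPC.Poly.div (by fun_prop) (NPC.Poly.const 2)) hn
  unfold Par.hit parOf entry
  simp only
  refine NPC.Poly.and ?_ (NPC.Poly.or ?_ (NPC.Poly.or ?_ ?_))
  · exact NPC.Poly.dec_eq (NPC.Poly.mod (by fun_prop) (NPC.Poly.const 2)) (NPC.Poly.const 0)
  · exact NPC.Poly.dec_eq (by fun_prop) hj
  · exact NPC.Poly.getD (NPC.Poly.getD (by fun_prop) (by fun_prop) (NPC.Poly.const [])) hj
      (NPC.Poly.const false)
  · exact NPC.Poly.getD (NPC.Poly.getD (by fun_prop) hj (NPC.Poly.const [])) (by fun_prop)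
      (NPC.Poly.const false)

theorem poly_al : NPC.Poly (fun p : X × ℕ => (parOf p.1).al p.2) := by
  unfold Par.al
  refine NPC.Poly.length (NPC.Poly.filter
    (p := fun (p : X × ℕ) j => (parOf p.1).hit p.2 j)
    (u2N.range.comp (f := fun p : X × ℕ => p.1) (NPC.Poly.fst NPC.Poly.id)) ?_)
  exact poly_hit.comp (f := fun q : (X × ℕ) × ℕ => (q.1.1, (q.1.2, q.2))) (by fun_prop)

theorem poly_th : NPC.Poly (fun p : X × (ℕ × ℕ) => (parOf p.1).th (some p.2.1) p.2.2) := by
  unfold Par.th
  simp only
  have hf : NPC.Poly (fun p : X × (ℕ × ℕ) => p.1) := by fun_prop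
  have hh : NPC.Poly (fun p : X × (ℕ × ℕ) =>
      decide ((parOf p.1).hit p.2.1 p.2.2 = true)) := poly_hit.congr fun p => by simp
  refine NPC.Poly.add (NPC.Poly.add (uZ.toPoly.comp hf) ?_) ?_
  · exact NPC.Poly.ite hh (NPC.Poly.const 1) (NPC.Poly.const 0)
  · have h1 : NPC.Poly (fun p : X × (ℕ × ℕ) => decide (p.2.2 + 1 = 2 * (parOf p.1).N)) :=
      NPC.Poly.dec_eq (by fun_prop) (u2N.toPoly.comp hf)
    have h2 : NPC.Poly (fun p : X × (ℕ × ℕ) => (parOf p.1).y + 1 - (parOf p.1).al p.2.1) :=
      NPC.Poly.sub (NPC.Poly.add (uy.toPoly.comp hf) (NPC.Poly.const 1))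
        (poly_al.comp (f := fun p : X × (ℕ × ℕ) => (p.1, p.2.1)) (by fun_prop))
    exact NPC.Poly.ite h1 h2 (NPC.Poly.const 0)

theorem u_th : UPoly (fun p : X × (ℕ × ℕ) => (parOf p.1).th (some p.2.1) p.2.2) := by
  have hf : NPC.Poly (fun p : X × (ℕ × ℕ) => p.1) := by fun_prop
  refine UPoly.of_le poly_th (n := fun p => (parOf p.1).Z + 1 + ((parOf p.1).y + 1))
    (UPoly.add (UPoly.add (uZ.comp hf) (UPoly.const 1)) (UPoly.add (uy.comp hf) (UPoly.const 1)))
    (fun p => ?_)
  unfold Par.th
  simp only
  split_ifs <;> omega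

/-- the column of a vertex -/
def colV (p : X × ℕ) : List ℕ :=
  (List.range (2 * (parOf p.1).N)).flatMap
    (fun j => List.replicate ((parOf p.1).th (some p.2) j) (j % 2)) ++
      List.replicate (parOf p.1).H 3

/-- the reference column -/
def colN (x : X) : List ℕ :=
  (List.range (2 * (parOf x).N)).flatMap (fun j => List.replicate (parOf x).Z (j % 2)) ++
    (List.replicate (parOf x).y 4 ++ [3])

theorem poly_colV : NPC.Poly colV := by
  unfold colV
  refine NPC.Poly.append (NPC.Poly.flatMap
    (F := fun (p : X × ℕ) j => List.replicate ((parOf p.1).th (some p.2) j) (j % 2))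
    (u2N.range.comp (f := fun p : X × ℕ => p.1) (NPC.Poly.fst NPC.Poly.id)) ?_) ?_
  · refine poly_replicate (u_th.comp (f := fun q : (X × ℕ) × ℕ => (q.1.1, (q.1.2, q.2)))
      (by fun_prop)) (NPC.Poly.mod (by fun_prop) (NPC.Poly.const 2))
  · exact poly_replicate (uH.comp (NPC.Poly.fst NPC.Poly.id)) (NPC.Poly.const 3)

theorem poly_colN : NPC.Poly colN := by
  unfold colN
  refine NPC.Poly.append (NPC.Poly.flatMap
    (F := fun (x : X) j => List.replicate (parOf x).Z (j % 2)) u2N.range ?_) ?_
  · exact poly_replicate (uZ.comp (NPC.Poly.fst NPC.Poly.id))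
      (NPC.Poly.mod (by fun_prop) (NPC.Poly.const 2))
  · exact NPC.Poly.append (poly_replicate uy (NPC.Poly.const 4)) (NPC.Poly.const [3])

/-- the board of the reduction -/
def brd (x : X) : Board :=
  (List.replicate (2 * (parOf x).K + 1)
    ((List.range (parOf x).n).flatMap (fun w => [colN x, colV (x, w)]))).flatten ++
      [[2, 2], List.replicate (parOf x).Zs 0]

theorem brd_eq (x : X) :
    (parOf x).board (List.range (2 * (parOf x).N)) (parOf x).Ds0 true true = brd x := by
  unfold Par.board brd Par.Ds0 Par.tailc Par.blk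
  rw [List.map_flatten, List.map_replicate, List.map_flatMap]
  rfl

theorem poly_brd : NPC.Poly brd := by
  unfold brd
  refine NPC.Poly.append (NPC.Poly.flatten (poly_replicate
    (UPoly.add (UPoly.mul (UPoly.const 2) uK) (UPoly.const 1))
    (NPC.Poly.flatMap (F := fun (x : X) w => [colN x, colV (x, w)]) un.range ?_))) ?_
  · exact NPC.Poly.cons (poly_colN.comp (f := fun p : X × ℕ => p.1) (by fun_prop))
      (NPC.Poly.cons (poly_colV.comp (f := fun p : X × ℕ => (p.1, p.2)) (by fun_prop))
        (NPC.Poly.const []))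
  · exact NPC.Poly.cons (NPC.Poly.const [2, 2])
      (NPC.Poly.cons (poly_replicate uZs (NPC.Poly.const 0)) (NPC.Poly.const []))

theorem poly_red : NPC.Poly red := by
  have h : NPC.Poly (fun x : X => decide (x.1.length = 0)) :=
    NPC.Poly.dec_eq (by fun_prop) (NPC.Poly.const 0)
  have h2 : NPC.Poly (fun x : X => (brd x, (parOf x).K)) := NPC.Poly.pair poly_brd uK.toPoly
  refine (NPC.Poly.ite h (NPC.Poly.const ([[2, 2]], 1)) h2).congr fun x => ?_
  unfold red
  rw [brd_eq]

theorem poly_redS : NPC.Poly redS := by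
  have h1 : NPC.Poly (fun x => (red x).1) := NPC.Poly.fst poly_red
  have h2 : NPC.Poly (fun x => (red x).2) := NPC.Poly.snd poly_red
  have h3 : NPC.Poly (fun x => tiles (red x).1) := by
    unfold tiles
    exact NPC.Poly.sum (NPC.Poly.map (F := fun (_ : X) (c : List ℕ) => c.length) h1
      (NPC.Poly.length (NPC.Poly.snd NPC.Poly.id)))
  exact NPC.Poly.pair h1 (NPC.Poly.pair h2 (NPC.Poly.sub h3 (NPC.Poly.const 1)))

end Pt

theorem red_par (x : X) : (red x).2 ≤ x.2 + 5 := by
  unfold red
  split_ifs with h0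
  · simp
  · have : min x.2 x.1.length ≤ x.2 := min_le_left _ _
    show min x.2 x.1.length + 5 ≤ x.2 + 5
    omega

end Pool.Agent.R538.Clk
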