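import Pool.Agent.R538.Clk.Struct

/-!
# Clicks on a run of levels
-/

namespace Pool.Agent.R538.Clk

namespace Par

variable {P : Par} {L L₁ Rn L₂ : List ℕ} {Ds : List (Option ℕ × List ℕ)} {c s : Bool} {t : ℕ}

/-- maximal runs of levels of colour `t` -/
structure IsRun (P : Par) (L₁ Rn L₂ : List ℕ) (t : ℕ) : Prop where
  sub : (L₁ ++ Rn ++ L₂).Sublist (List.range (2 * P.N))
  ne : Rn ≠ []
  col : ∀ x ∈ Rn, x % 2 = t
  low : ∀ x, L₁.getLast? = some x → x % 2 ≠ t
  high : ∀ x, L₂.head? = some x → x % 2 ≠ t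

/-- positions of the tiles of a run -/
def InRun (P : Par) (L₁ Rn : List ℕ) (Ds : List (Option ℕ × List ℕ)) (q : ℕ × ℕ) : Prop :=
  ∃ D, Ds[q.1]? = some D ∧ P.len D.1 L₁ ≤ q.2 ∧ q.2 < P.len D.1 (L₁ ++ Rn)

theorem IsRun.off_low (h : IsRun P L₁ Rn L₂ t) (ty ty' : Option ℕ) :
    P.len ty L₁ < P.len ty' L₁ + P.Z := by
  obtain ⟨l, R, hR⟩ := List.exists_cons_of_ne_nil h.ne
  have := h.sub
  rw [hR, List.append_assoc, List.cons_append] at this
  exact off this ty ty'

theorem IsRun.off_high (h : IsRun P L₁ Rn L₂ t) (hne : L₂ ≠ []) (ty ty' : Option ℕ) :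
    P.len ty (L₁ ++ Rn) < P.len ty' (L₁ ++ Rn) + P.Z := by
  obtain ⟨l, R, hR⟩ := List.exists_cons_of_ne_nil hne
  have := h.sub
  rw [hR] at this
  exact off this ty ty'

theorem IsRun.Z_pos (h : IsRun P L₁ Rn L₂ t) : 2 ≤ P.Z := by
  obtain ⟨l, R, hR⟩ := List.exists_cons_of_ne_nil h.ne
  have h1 : l ∈ List.range (2 * P.N) := h.sub.subset (by rw [hR]; simp)
  have := List.mem_range.1 h1
  unfold Z
  omega

theorem IsRun.len_run (h : IsRun P L₁ Rn L₂ t) (ty : Option ℕ) :
    P.len ty L₁ + P.Z ≤ P.len ty (L₁ ++ Rn) := by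
  obtain ⟨l, R, hR⟩ := List.exists_cons_of_ne_nil h.ne
  rw [len_append, hR, len_cons]
  have := Z_le_th (P := P) ty l
  omega

theorem colc_run {D : Option ℕ × List ℕ} {r : ℕ} (hcol : ∀ x ∈ Rn, x % 2 = t)
    (h1 : P.len D.1 L₁ ≤ r) (h2 : r < P.len D.1 (L₁ ++ Rn)) :
    (P.colc (L₁ ++ Rn ++ L₂) D)[r]? = some t := by
  unfold colc
  rw [stk_append, stk_append]
  rw [len_append] at h2
  rw [List.append_assoc, List.append_assoc, List.getElem?_append_right (by rw [length_stk]; exact h1),
    length_stk, List.getElem?_append_left (by rw [length_stk]; omega)]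
  exact stk_run hcol (by omega)

theorem run_closed (h : IsRun P L₁ Rn L₂ t) (hup : ∀ D ∈ Ds, ∀ u ∈ D.2, u ≠ t)
    (htail : ∀ r, tile (P.board (L₁ ++ Rn ++ L₂) Ds c s) (Ds.length, r) ≠ some t)
    (q q' : ℕ × ℕ) (hq : InRun P L₁ Rn Ds q)
    (hl : Link (P.board (L₁ ++ Rn ++ L₂) Ds c s) q q') : InRun P L₁ Rn Ds q' := by
  obtain ⟨D, h1, h2, h3⟩ := hq
  obtain ⟨hadj, t', h4, h5⟩ := hl
  have h6 : tile (P.board (L₁ ++ Rn ++ L₂) Ds c s) (q.1, q.2) = some t := by
    rw [tile_lt h1]
    exact colc_run h.col h2 h3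
  rw [show tile (P.board (L₁ ++ Rn ++ L₂) Ds c s) q
    = tile (P.board (L₁ ++ Rn ++ L₂) Ds c s) (q.1, q.2) from rfl, h6] at h4
  cases h4
  have hq1 : q.1 < Ds.length := (List.getElem?_eq_some_iff.1 h1).1
  have hZ := h.Z_pos
  rcases tile_cases h5 with ⟨D', h7, h8⟩ | ⟨i, col, h7, -, -⟩
  · refine ⟨D', h7, ?_, ?_⟩
    · by_contra hlt
      push Not at hlt
      have h9 : (P.stk D'.1 L₁)[q'.2]? = some t := by
        unfold colc at h8
        rw [stk_append, stk_append, List.append_assoc, List.append_assoc,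
          List.getElem?_append_left (by rw [length_stk]; exact hlt)] at h8
        exact h8
      have h10 := stk_low h.low h9
      have h11 := h.off_low D'.1 D.1
      rcases hadj with ⟨e1, e2⟩ | ⟨e1, e2⟩
      · rw [← e1, h1] at h7
        cases h7
        omega
      · omega
    · by_contra hge
      push Not at hge
      have h9 : (P.stk D'.1 L₂ ++ D'.2)[q'.2 - P.len D'.1 (L₁ ++ Rn)]? = some t := by
        unfold colc at h8
        rw [stk_append, List.append_assoc,
          List.getElem?_append_right (by rw [length_stk]; exact hge), length_stk] at h8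
        exact h8
      have h10 := stk_high h.high (hup D' (List.mem_of_getElem? h7)) h9
      have h11 := h.off_high h10.2 D.1 D'.1
      rcases hadj with ⟨e1, e2⟩ | ⟨e1, e2⟩ <;> omega
  · exfalso
    have hi : i = 0 := by
      rcases hadj with ⟨e1, e2⟩ | ⟨e1, e2⟩ <;> omega
    subst hi
    have h9 : q' = (Ds.length, q'.2) := Prod.ext h7 rfl
    rw [h9] at h5
    exact htail _ h5

/-- type of the column `i` -/
def tyOf (Ds : List (Option ℕ × List ℕ)) (i : ℕ) : Option ℕ := (Ds[i]?.map Prod.fst).getD none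

theorem tyOf_eq {i : ℕ} {D : Option ℕ × List ℕ} (h : Ds[i]? = some D) : tyOf Ds i = D.1 := by
  simp [tyOf, h]

theorem run_conn (h : IsRun P L₁ Rn L₂ t) {q q' : ℕ × ℕ} (hq : InRun P L₁ Rn Ds q)
    (hq' : InRun P L₁ Rn Ds q') : Grp (P.board (L₁ ++ Rn ++ L₂) Ds c s) q q' := by
  obtain ⟨D, h1, h2, h3⟩ := hq
  obtain ⟨D', h1', h2', h3'⟩ := hq'
  have hl := (List.getElem?_eq_some_iff.1 h1).1
  have hl' := (List.getElem?_eq_some_iff.1 h1').1
  refine conn_intervals (t := t) (lo := 0) (hi := Ds.length) (a := fun i => P.len (tyOf Ds i) L₁)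
    (b := fun i => P.len (tyOf Ds i) (L₁ ++ Rn)) ?_ ?_ (Nat.zero_le _) hl ?_ ?_
    (Nat.zero_le _) hl' ?_ ?_
  · intro i _ hi r hr1 hr2
    have hD : Ds[i]? = some Ds[i] := List.getElem?_eq_getElem hi
    rw [tile_lt hD]
    simp only [tyOf_eq hD] at hr1 hr2
    exact colc_run h.col hr1 hr2
  · intro i _ hi
    have e1 := h.off_low (tyOf Ds i) (tyOf Ds (i + 1))
    have e2 := h.off_low (tyOf Ds (i + 1)) (tyOf Ds i)
    have e3 := h.len_run (tyOf Ds i)
    have e4 := h.len_run (tyOf Ds (i + 1))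
    refine ⟨max (P.len (tyOf Ds i) L₁) (P.len (tyOf Ds (i + 1)) L₁), ⟨le_max_left _ _, ?_⟩,
      le_max_right _ _, ?_⟩
    · rw [max_lt_iff]; constructor <;> omega
    · rw [max_lt_iff]; constructor <;> omega
  · simp only [tyOf_eq h1]; exact h2
  · simp only [tyOf_eq h1]; exact h3
  · simp only [tyOf_eq h1']; exact h2'
  · simp only [tyOf_eq h1']; exact h3'

/-- removal on a special board -/
theorem remove_board {S : ℕ × ℕ → Prop} {L' : List ℕ} {Ds' : List (Option ℕ × List ℕ)} {c' s' : Bool}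
    (hlen : Ds'.length = Ds.length)
    (h : ∀ i D D', Ds[i]? = some D → Ds'[i]? = some D' →
      keepCol (fun j => S (i, j)) (P.colc L D) = P.colc L' D')
    (ht : ((P.tailc c s).mapIdx (fun i col => keepCol (fun j => S (Ds.length + i, j)) col)).filter
      (fun col => col ≠ []) = P.tailc c' s') :
    remove (P.board L Ds c s) S
      = P.board L' (Ds'.filter (fun D => P.colc L' D ≠ [])) c' s' := by
  unfold remove board
  rw [List.mapIdx_append, List.filter_append]
  congr 1
  · have e : (Ds.map (P.colc L)).mapIdx (fun i col => keepCol (fun j => S (i, j)) col)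
        = Ds'.map (P.colc L') := by
      apply List.ext_getElem
      · simp [hlen]
      · intro i h1 h2
        simp only [List.length_mapIdx, List.length_map] at h1 h2
        rw [List.getElem_mapIdx, List.getElem_map, List.getElem_map]
        exact h i _ _ (List.getElem?_eq_getElem _) (List.getElem?_eq_getElem _)
    rw [e, List.filter_map]
    rfl
  · rw [← ht]
    congr 2
    funext i col
    congr 1
    funext j
    rw [List.length_map, add_comm]

theorem Zs_pos : 0 < P.Zs := by unfold Zs; omega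

theorem tailc_ne {col : List ℕ} (h : col ∈ P.tailc c s) : col ≠ [] := by
  obtain ⟨i, hi⟩ := List.getElem?_of_mem h
  have := Zs_pos (P := P)
  rcases tailc_cases hi with ⟨-, -, rfl⟩ | ⟨-, rfl, -⟩
  · simp
  · intro h'
    have := congrArg List.length h'
    simp at this
    omega

theorem tail_same {S : ℕ × ℕ → Prop} {m : ℕ} (h : ∀ i j, ¬ S (m + i, j)) :
    ((P.tailc c s).mapIdx (fun i col => keepCol (fun j => S (m + i, j)) col)).filter
      (fun col => col ≠ []) = P.tailc c s := by
  have e : (P.tailc c s).mapIdx (fun i col => keepCol (fun j => S (m + i, j)) col) = P.tailc c s := by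
    apply List.ext_getElem
    · simp
    · intro i h1 h2
      rw [List.getElem_mapIdx]
      exact keepCol_eq_self (fun j _ => h i j)
  rw [e, List.filter_eq_self]
  intro col hcol
  simpa using tailc_ne hcol

theorem run_group (h : IsRun P L₁ Rn L₂ t) (hup : ∀ D ∈ Ds, ∀ u ∈ D.2, u ≠ t)
    (htail : ∀ r, tile (P.board (L₁ ++ Rn ++ L₂) Ds c s) (Ds.length, r) ≠ some t)
    {p : ℕ × ℕ} (hp : InRun P L₁ Rn Ds p) (q : ℕ × ℕ) :
    Grp (P.board (L₁ ++ Rn ++ L₂) Ds c s) p q ↔ InRun P L₁ Rn Ds q :=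
  ⟨fun hg => hg.closed (run_closed h hup htail) hp, fun hq => run_conn h hp hq⟩

/-- Result of a click on a run. -/
theorem run_remove (h : IsRun P L₁ Rn L₂ t) (hup : ∀ D ∈ Ds, ∀ u ∈ D.2, u ≠ t)
    (htail : ∀ r, tile (P.board (L₁ ++ Rn ++ L₂) Ds c s) (Ds.length, r) ≠ some t)
    {p : ℕ × ℕ} (hp : InRun P L₁ Rn Ds p) :
    remove (P.board (L₁ ++ Rn ++ L₂) Ds c s) (Grp (P.board (L₁ ++ Rn ++ L₂) Ds c s) p)
      = P.board (L₁ ++ L₂) (Ds.filter (fun D => P.colc (L₁ ++ L₂) D ≠ [])) c s := by
  refine remove_board rfl ?_ (tail_same ?_)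
  · intro i D D' h1 h2
    rw [h1] at h2
    cases h2
    have e1 : keepCol (fun j => Grp (P.board (L₁ ++ Rn ++ L₂) Ds c s) p (i, j))
        (P.colc (L₁ ++ Rn ++ L₂) D)
        = keepCol (fun j => P.len D.1 L₁ ≤ j ∧ j < P.len D.1 (L₁ ++ Rn)) (P.colc (L₁ ++ Rn ++ L₂) D) := by
      refine keepCol_congr fun j _ => ?_
      rw [run_group h hup htail hp]
      constructor
      · rintro ⟨D', h3, h4, h5⟩
        simp only at h3
        rw [h1] at h3
        cases h3
        exact ⟨h4, h5⟩
      · rintro ⟨h4, h5⟩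
        exact ⟨D, h1, h4, h5⟩
    rw [e1]
    unfold colc
    rw [stk_append, stk_append, List.append_assoc, List.append_assoc, keepCol_append, keepCol_append,
      stk_append, List.append_assoc]
    rw [keepCol_eq_self (c := P.stk D.1 L₁), keepCol_eq_nil (c := P.stk D.1 Rn),
      keepCol_eq_self (c := P.stk D.1 L₂ ++ D.2)]
    · rfl
    · intro j _
      rw [length_stk, length_stk, len_append]
      omega
    · intro j hj
      rw [length_stk] at hj ⊢
      rw [len_append]
      omega
    · intro j hj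
      rw [length_stk] at hj
      omega
  · intro i j hg
    rw [run_group h hup htail hp] at hg
    obtain ⟨D, h1, -⟩ := hg
    have := (List.getElem?_eq_some_iff.1 h1).1
    simp only at this
    omega

/-! ### Colour `0` when the spine is adjacent -/

theorem len_le_Zs {L : List ℕ} (h : L.Sublist (List.range (2 * P.N))) (ty : Option ℕ) :
    P.len ty L ≤ P.Zs := by
  have key : ∀ L : List ℕ, L.Nodup → (∀ x ∈ L, x < 2 * P.N) →
      P.len ty L ≤ L.length * (P.Z + 1) + (if 2 * P.N - 1 ∈ L then P.y + 1 else 0) := by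
    intro L
    induction L with
    | nil => intro _ _; simp [len]
    | cons j L ih =>
      intro hnd hlt
      rw [List.nodup_cons] at hnd
      have h1 := ih hnd.2 (fun x hx => hlt x (List.mem_cons_of_mem _ hx))
      have hj := hlt j List.mem_cons_self
      rw [len_cons, List.length_cons]
      have h2 : P.th ty j ≤ (P.Z + 1) + (if j = 2 * P.N - 1 then P.y + 1 else 0) := by
        unfold th
        split
        · split_ifs <;> omega
        · split_ifs <;> omega
      have h3 : (L.length + 1) * (P.Z + 1) = L.length * (P.Z + 1) + (P.Z + 1) := by ring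
      by_cases h4 : j = 2 * P.N - 1
      · rw [if_neg (by rw [← h4]; exact hnd.1)] at h1
        rw [if_pos (by rw [h4]; exact List.mem_cons_self)]
        rw [if_pos h4] at h2
        omega
      · rw [if_neg h4] at h2
        have h5 : (2 * P.N - 1 ∈ j :: L) ↔ 2 * P.N - 1 ∈ L := by
          rw [List.mem_cons]
          constructor
          · rintro (h | h)
            · exact absurd h.symm h4
            · exact h
          · exact Or.inr
        simp only [h5]
        omega
  have h1 := key L (List.Nodup.sublist h List.nodup_range) (fun x hx => List.mem_range.1 (h.subset hx))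
  have h2 := h.length_le
  rw [List.length_range] at h2
  have h3 : L.length * (P.Z + 1) ≤ 2 * P.N * (P.Z + 1) := Nat.mul_le_mul_right _ h2
  unfold Zs
  split_ifs at h1 <;> omega

end Par

end Pool.Agent.R538.Clk
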