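import Pool.Agent.R538.Clk.Has

/-!
# Soundness: invariants of click sequences
-/

namespace Pool.Agent.R538.Clk

/-- number of maximal runs of colour `t`; the flag tells whether the previous level has colour `t` -/
def rns (t : ℕ) : Bool → List ℕ → ℕ
  | _, [] => 0
  | b, x :: L => (if x % 2 = t ∧ b = false then 1 else 0) + rns t (decide (x % 2 = t)) L

theorem rns_le (t : ℕ) (b : Bool) (L : List ℕ) : rns t b L ≤ rns t false L := by
  cases L with
  | nil => simp [rns]
  | cons x L =>
    cases b <;> simp [rns]

theorem rns_ge (t : ℕ) (b : Bool) (L : List ℕ) : rns t false L ≤ rns t b L + 1 := by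
  cases L with
  | nil => simp [rns]
  | cons x L =>
    simp only [rns]
    split_ifs <;> omega

/-- flag after a list -/
def flag (t : ℕ) (b : Bool) (L : List ℕ) : Bool :=
  match L.getLast? with
  | none => b
  | some x => decide (x % 2 = t)

theorem rns_append (t : ℕ) (b : Bool) (U V : List ℕ) :
    rns t b (U ++ V) = rns t b U + rns t (flag t b U) V := by
  induction U generalizing b with
  | nil => simp [rns, flag]
  | cons x U ih =>
    simp only [List.cons_append, rns, ih]
    have : flag t (decide (x % 2 = t)) U = flag t b (x :: U) := by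
      cases U with
      | nil => simp [flag]
      | cons y U =>
        unfold flag
        rw [List.getLast?_cons_cons]
        cases h : (y :: U).getLast? with
        | none => simp at h
        | some z => rfl
    rw [this]
    ring

theorem rns_same {t : ℕ} {L : List ℕ} (h : ∀ x ∈ L, x % 2 = t) : rns t true L = 0 := by
  induction L with
  | nil => rfl
  | cons x L ih =>
    simp only [rns]
    rw [if_neg (by simp), show decide (x % 2 = t) = true by simpa using h x List.mem_cons_self,
      ih (fun y hy => h y (List.mem_cons_of_mem _ hy))]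

theorem rns_diff {t : ℕ} {b : Bool} {L : List ℕ} (h : ∀ x ∈ L, x % 2 ≠ t) : rns t b L = 0 := by
  induction L generalizing b with
  | nil => rfl
  | cons x L ih =>
    simp only [rns]
    rw [if_neg (by intro h'; exact h x List.mem_cons_self h'.1),
      ih (fun y hy => h y (List.mem_cons_of_mem _ hy))]

theorem rns_le_filter (t : ℕ) (b : Bool) (L : List ℕ) :
    rns t b L ≤ (L.filter (fun j => decide (j % 2 = t))).length := by
  induction L generalizing b with
  | nil => simp [rns]
  | cons x L ih =>
    simp only [rns, List.filter_cons]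
    have := ih (decide (x % 2 = t))
    by_cases h : x % 2 = t
    · rw [if_pos (by simpa using h : decide (x % 2 = t) = true), List.length_cons]
      split_ifs <;> omega
    · rw [if_neg (by simpa using h : ¬ decide (x % 2 = t) = true)]
      rw [if_neg (fun h' => h h'.1)]
      omega

theorem rns_run {P : Par} {L₁ Rn L₂ : List ℕ} {t : ℕ} (h : Par.IsRun P L₁ Rn L₂ t) (t' : ℕ) :
    rns t' false (L₁ ++ Rn ++ L₂) ≤ rns t' false (L₁ ++ L₂) + 1 := by
  rw [rns_append, rns_append, rns_append]
  by_cases ht : t' = t
  · subst ht
    have h1 : flag t' false L₁ = false := by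
      unfold flag
      cases hL : L₁.getLast? with
      | none => rfl
      | some x => simpa using h.low x hL
    rw [h1]
    obtain ⟨l, R, hR⟩ := List.exists_cons_of_ne_nil h.ne
    have h2 : rns t' false Rn ≤ 1 := by
      rw [hR]
      have hl : l % 2 = t' := h.col l (by rw [hR]; exact List.mem_cons_self)
      simp only [rns]
      rw [show decide (l % 2 = t') = true by simpa using hl,
        rns_same (fun x hx => h.col x (by rw [hR]; exact List.mem_cons_of_mem _ hx))]
      split_ifs <;> omega
    have h3 := rns_le t' (flag t' false (L₁ ++ Rn)) L₂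
    omega
  · have h2 : rns t' (flag t' false L₁) Rn = 0 :=
      rns_diff (fun x hx => by rw [h.col x hx]; exact Ne.symm ht)
    have h4 : flag t' false (L₁ ++ Rn) = false := by
      unfold flag
      rw [List.getLast?_append_of_ne_nil _ h.ne]
      cases hL : Rn.getLast? with
      | none => rfl
      | some x =>
        have := h.col x (List.mem_of_getLast? hL)
        simp only [this, decide_eq_false_iff_not]
        exact Ne.symm ht
    have h3 := rns_ge t' (flag t' false L₁) L₂
    rw [h2, h4]
    omega

namespace Par

variable {P : Par} {L : List ℕ} {Ds : List (Option ℕ × List ℕ)} {c s : Bool} {t : ℕ}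

/-- reference column, upper part -/
def upR (P : Par) : List ℕ := List.replicate P.y 4 ++ [3]
/-- vertex column, upper part -/
def upG (P : Par) : List ℕ := List.replicate P.H 3
/-- the block of columns -/
def blk (P : Par) : List (Option ℕ × List ℕ) :=
  (List.range P.n).flatMap (fun w => [(none, P.upR), (some w, P.upG)])

theorem blk_split {w : ℕ} (hw : w < P.n) :
    ∃ U V, P.blk = U ++ (none, P.upR) :: (some w, P.upG) :: V := by
  obtain ⟨a, b, h⟩ := List.append_of_mem (List.mem_range.2 hw)
  unfold blk
  rw [h, List.flatMap_append, List.flatMap_cons]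
  exact ⟨_, _, rfl⟩

theorem blk_up_ne {D : Option ℕ × List ℕ} (h : D ∈ P.blk) : D.2 ≠ [] := by
  unfold blk at h
  rw [List.mem_flatMap] at h
  obtain ⟨w, -, hD⟩ := h
  simp only [List.mem_cons, List.not_mem_nil, or_false] at hD
  rcases hD with rfl | rfl
  · simp [upR]
  · simp [upG, H]

/-- the event that the whole block is covered by a group -/
def Good (P : Par) (L : List ℕ) : Prop :=
  ∀ w < P.n, ∃ r : ℕ, (P.colc L (none, P.upR))[r]? = some 3 ∧ (P.colc L (some w, P.upG))[r]? = some 3

/-- the invariant -/
structure Inv (P : Par) (j : ℕ) (L : List ℕ) (Ds : List (Option ℕ × List ℕ)) (c s : Bool) (ja : ℕ) :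
    Prop where
  sub : L.Sublist (List.range (2 * P.N))
  up : ∀ D ∈ Ds, ∀ u ∈ D.2, u = 3 ∨ u = 4
  has : Has P.blk (2 * (P.K - j) + 1) Ds
  cnt : ja + (if c = true then 0 else 1) ≤ j
  runs : (∀ x ∈ L, x % 2 ≠ 0) ∨ (P.N ≤ rns 0 false L + ja ∧ P.N ≤ rns 1 false L + ja)

theorem has_filter {q : ℕ} (h : Has P.blk q Ds) (L : List ℕ) :
    Has P.blk q (Ds.filter (fun D => P.colc L D ≠ [])) := by
  refine h.filt _ ?_
  intro D hD
  have := blk_up_ne hD
  change decide (P.colc L D ≠ []) = true
  rw [decide_eq_true_iff]
  intro h'
  exact this (List.append_eq_nil_iff.1 h').2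

/-- the colours in the first column of the tail -/
theorem tile_tail0 {r t : ℕ} (h : tile (P.board L Ds c s) (Ds.length, r) = some t) :
    (c = true ∧ t = 2) ∨ (c = false ∧ s = true ∧ t = 0) := by
  rcases tile_cases h with ⟨D, h1, -⟩ | ⟨i, col, h1, h2, h3⟩
  · have := (List.getElem?_eq_some_iff.1 h1).1
    simp at this
  · have hi : i = 0 := by simp at h1; exact h1
    subst hi
    rcases tailc_cases h2 with ⟨h4, -, h5⟩ | ⟨h4, h5, h6⟩
    · rw [h5] at h3
      have := List.mem_of_getElem? h3
      simp at this
      exact Or.inl ⟨h4, this⟩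
    · rw [h5] at h3
      have := List.eq_of_mem_replicate (List.mem_of_getElem? h3)
      rcases h6 with ⟨-, h7⟩ | ⟨h7, -⟩
      · exact absurd h7 (by simp)
      · exact Or.inr ⟨h7, h4, this⟩

theorem inv_run {j ja : ℕ} (hI : Inv P j L Ds c s ja) {p : ℕ × ℕ} {D : Option ℕ × List ℕ}
    (ht : t = 0 ∨ t = 1) (htail : ∀ r, tile (P.board L Ds c s) (Ds.length, r) ≠ some t)
    (h1 : Ds[p.1]? = some D) (h2 : (P.colc L D)[p.2]? = some t) :
    ∃ L' Ds', remove (P.board L Ds c s) (Grp (P.board L Ds c s) p) = P.board L' Ds' c s ∧
      Inv P (j + 1) L' Ds' c s (ja + 1) := by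
  have hup : ∀ D ∈ Ds, ∀ u ∈ D.2, u ≠ t := by
    intro D hD u hu
    rcases hI.up D hD u hu with h | h <;> rcases ht with h' | h' <;> omega
  obtain ⟨L₁, Rn, L₂, e1, hrun, e2, e3⟩ :=
    exists_run hI.sub (stk_of_colc (hup D (List.mem_of_getElem? h1)) h2)
  subst e1
  refine ⟨_, _, run_remove hrun hup htail ⟨D, h1, e2, e3⟩, ?_, ?_, ?_, ?_, ?_⟩
  · refine List.Sublist.trans ?_ hI.sub
    exact List.Sublist.append (List.sublist_append_left _ _) (List.Sublist.refl _)
  · intro D hD u hu
    exact hI.up D (List.mem_filter.1 hD).1 u hu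
  · exact has_filter (hI.has.mono (by omega)) _
  · have := hI.cnt; omega
  · rcases hI.runs with h | ⟨h, h'⟩
    · left
      intro x hx
      refine h x ?_
      rcases List.mem_append.1 hx with h3 | h3
      · simp [h3]
      · simp [h3]
    · right
      have a1 := rns_run hrun 0
      have a2 := rns_run hrun 1
      omega

theorem up_filter {Ds : List (Option ℕ × List ℕ)} (hup : ∀ D ∈ Ds, ∀ u ∈ D.2, u ≠ t) :
    Ds.map (fun D => (D.1, D.2.filter (fun u => decide (u ≠ t)))) = Ds := by
  conv_rhs => rw [← List.map_id Ds]
  refine List.map_congr_left ?_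
  intro D hD
  have : D.2.filter (fun u => decide (u ≠ t)) = D.2 := by
    rw [List.filter_eq_self]
    intro u hu
    simpa using hup D hD u hu
  rw [this]
  rfl

theorem tile_two (h : c = true) {r : ℕ} (hr : r < 2) :
    tile (P.board L Ds c s) (Ds.length, r) = some 2 := by
  subst h
  have h1 : (P.board L Ds true s)[Ds.length + 0]? = some [2, 2] := by
    rw [board_ge]; simp [tailc]
  rw [add_zero] at h1
  rw [tile_eq h1]
  interval_cases r <;> rfl

theorem lt_of_stk {ty : Option ℕ} {r : ℕ} (h : (P.stk ty L)[r]? = some t) : t < 2 := by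
  have := List.mem_of_getElem? h
  unfold stk at this
  rw [List.mem_flatMap] at this
  obtain ⟨x, -, hx⟩ := this
  rw [List.eq_of_mem_replicate hx]
  omega

/-- A tile of colour different from `0`, `1`, `2` lies in the upper part of a stack column. -/
theorem upper_pos (h0 : t ≠ 0) (h1 : t ≠ 1) (h2 : t ≠ 2) {q : ℕ × ℕ}
    (h : tile (P.board L Ds c s) q = some t) :
    ∃ D, Ds[q.1]? = some D ∧ P.len D.1 L ≤ q.2 ∧ D.2[q.2 - P.len D.1 L]? = some t := by
  rcases tile_cases h with ⟨D, h3, h4⟩ | ⟨i, col, h3, h4, h5⟩
  · refine ⟨D, h3, ?_⟩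
    unfold colc at h4
    by_cases hr : q.2 < (P.stk D.1 L).length
    · rw [List.getElem?_append_left hr] at h4
      have := lt_of_stk h4
      omega
    · rw [List.getElem?_append_right (not_lt.1 hr), length_stk] at h4
      rw [length_stk] at hr
      exact ⟨not_lt.1 hr, h4⟩
  · exfalso
    rcases tailc_cases h4 with ⟨-, -, h6⟩ | ⟨-, h6, -⟩
    · rw [h6] at h5
      have := List.mem_of_getElem? h5
      simp at this
      exact h2 this
    · rw [h6] at h5
      exact h0 (List.eq_of_mem_replicate (List.mem_of_getElem? h5))

theorem inv_upper {j ja : ℕ} (hI : Inv P j L Ds c s ja) (hj : j < P.K) {p : ℕ × ℕ}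
    (h0 : t ≠ 0) (h1 : t ≠ 1) (h2 : t ≠ 2) (hp : tile (P.board L Ds c s) p = some t) :
    (∃ Ds', remove (P.board L Ds c s) (Grp (P.board L Ds c s) p) = P.board L Ds' c s ∧
      Inv P (j + 1) L Ds' c s ja) ∨ Good P L := by
  classical
  set B := P.board L Ds c s with hB
  have U1 : ∀ q, Grp B p q → ∃ D, Ds[q.1]? = some D ∧ P.len D.1 L ≤ q.2 ∧
      D.2[q.2 - P.len D.1 L]? = some t := fun q hq => upper_pos h0 h1 h2 (hq.tile hp)
  -- the interval of touched columns
  let I : Finset ℕ := (Finset.range Ds.length).filter (fun i => ∃ r, Grp B p (i, r))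
  have hImem : ∀ i r, Grp B p (i, r) → i ∈ I := by
    intro i r hg
    obtain ⟨D, hD, -⟩ := U1 _ hg
    simp only [I, Finset.mem_filter, Finset.mem_range]
    exact ⟨(List.getElem?_eq_some_iff.1 hD).1, r, hg⟩
  have hIne : I.Nonempty := ⟨p.1, hImem p.1 p.2 (Grp.refl _)⟩
  set lo := I.min' hIne with hlo
  set hi := I.max' hIne with hhi
  have hlo' : lo ∈ I := Finset.min'_mem _ _
  have hhi' : hi ∈ I := Finset.max'_mem _ _
  have hlohi : lo ≤ hi := Finset.min'_le _ _ hhi'
  simp only [I, Finset.mem_filter, Finset.mem_range] at hlo' hhi'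
  obtain ⟨hlo1, rlo, hlo2⟩ := hlo'
  obtain ⟨hhi1, rhi, hhi2⟩ := hhi'
  have U2 : ∀ i, lo ≤ i → i < hi → ∃ r, Grp B p (i, r) ∧ Grp B p (i + 1, r) := by
    intro i hi1 hi2
    obtain ⟨r, g1, g2⟩ := Grp.cross (hlo2.symm.trans hhi2) hi1 hi2
    exact ⟨r, hlo2.trans g1, hlo2.trans g2⟩
  have hout : ∀ i r, i < lo ∨ hi < i → ¬ Grp B p (i, r) := by
    intro i r h hg
    have := hImem i r hg
    have h3 := Finset.min'_le I i this
    have h4 := Finset.le_max' I i this
    omega
  let Ds1 := Ds.mapIdx (fun i D => (D.1, keepCol (fun j => Grp B p (i, j + P.len D.1 L)) D.2))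
  have hDs1 : ∀ i D, Ds[i]? = some D →
      Ds1[i]? = some (D.1, keepCol (fun j => Grp B p (i, j + P.len D.1 L)) D.2) := by
    intro i D h
    simp only [Ds1, List.getElem?_mapIdx, h, Option.map_some]
  have hrem : remove B (Grp B p) = P.board L (Ds1.filter (fun D => P.colc L D ≠ [])) c s := by
    rw [hB]
    refine remove_board (by simp [Ds1]) ?_ (tail_same ?_)
    · intro i D D' h3 h4
      rw [hDs1 i D h3] at h4
      cases h4
      unfold colc
      rw [keepCol_append, length_stk]
      congr 1
      refine keepCol_eq_self fun j hj hg => ?_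
      obtain ⟨D', h5, h6, -⟩ := U1 _ hg
      simp only at h5 h6
      rw [h3] at h5
      cases h5
      rw [length_stk] at hj
      omega
    · intro i j hg
      obtain ⟨D', h5, -⟩ := U1 _ hg
      have := (List.getElem?_eq_some_iff.1 h5).1
      simp only at this
      omega
  -- decomposition
  have hDec : Ds = Ds.take lo ++ ((Ds.drop lo).take (hi + 1 - lo) ++ Ds.drop (hi + 1)) := by
    have e : Ds.drop (hi + 1) = (Ds.drop lo).drop (hi + 1 - lo) := by
      rw [List.drop_drop]; congr 1; omega
    rw [e, List.take_append_drop, List.take_append_drop]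
  have hDec1 : Ds1 = Ds1.take lo ++ ((Ds1.drop lo).take (hi + 1 - lo) ++ Ds1.drop (hi + 1)) := by
    have e : Ds1.drop (hi + 1) = (Ds1.drop lo).drop (hi + 1 - lo) := by
      rw [List.drop_drop]; congr 1; omega
    rw [e, List.take_append_drop, List.take_append_drop]
  have hsame : ∀ i, i < lo ∨ hi < i → Ds1[i]? = Ds[i]? := by
    intro i h
    cases hD : Ds[i]? with
    | none =>
      rw [List.getElem?_eq_none_iff] at hD ⊢
      simpa [Ds1] using hD
    | some D =>
      rw [hDs1 i D hD, keepCol_eq_self]
      intro j _
      exact hout i _ h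
  have htake : Ds1.take lo = Ds.take lo := by
    apply List.ext_getElem?
    intro i
    rw [List.getElem?_take, List.getElem?_take]
    split_ifs with h
    · exact hsame i (Or.inl h)
    · rfl
  have hdrop : Ds1.drop (hi + 1) = Ds.drop (hi + 1) := by
    apply List.ext_getElem?
    intro i
    rw [List.getElem?_drop, List.getElem?_drop]
    exact hsame _ (Or.inr (by omega))
  obtain ⟨q₁, q₂, hq, g1, g2⟩ := hI.has.split _ _ hDec
  obtain ⟨qM, q₃, hq', g3, g4⟩ := g2.split _ _ rfl
  rcases Nat.eq_zero_or_pos qM with hM | hM
  · left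
    refine ⟨_, hrem, hI.sub, ?_, ?_, ?_, hI.runs⟩
    · intro D hD u hu
      have hD' := (List.mem_filter.1 hD).1
      obtain ⟨i, hi'⟩ := List.getElem?_of_mem hD'
      have hlt : i < Ds.length := by
        have := (List.getElem?_eq_some_iff.1 hi').1
        simpa [Ds1] using this
      have h3 : Ds[i]? = some Ds[i] := List.getElem?_eq_getElem hlt
      rw [hDs1 i _ h3] at hi'
      have h4 := Option.some.inj hi'
      rw [← h4] at hu
      exact hI.up _ (List.getElem_mem hlt) u ((keepCol_sublist _ _).subset hu)
    · refine has_filter ?_ _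
      have h5 : Has P.blk (q₁ + (0 + q₃)) Ds1 := by
        rw [hDec1, htake, hdrop]
        exact g1.app ((Has.zero _).app g4)
      exact h5.mono (by omega)
    · have := hI.cnt; omega
  · right
    obtain ⟨F, G, hFG⟩ := (g3.mono hM).one
    intro w hw
    obtain ⟨Ub, V, hUV⟩ := blk_split hw
    have hlenM : ((Ds.drop lo).take (hi + 1 - lo)).length ≤ hi + 1 - lo := List.length_take_le _ _
    have hlen0 : (Ds.take lo).length = lo := by
      rw [List.length_take]; omega
    rw [hFG, hUV] at hlenM
    simp only [List.length_append, List.length_cons] at hlenM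
    have hDs2 : Ds = (Ds.take lo ++ F ++ Ub) ++ (none, P.upR) :: (some w, P.upG) ::
        (V ++ G ++ Ds.drop (hi + 1)) := by
      conv_lhs => rw [hDec, hFG, hUV]
      simp
    have hi0 : Ds[lo + F.length + Ub.length]? = some (none, P.upR) := by
      rw [hDs2, List.getElem?_append_right (by simp; omega)]
      have : lo + F.length + Ub.length - (Ds.take lo ++ F ++ Ub).length = 0 := by
        simp only [List.length_append, hlen0]; omega
      rw [this]; rfl
    have hi1 : Ds[lo + F.length + Ub.length + 1]? = some (some w, P.upG) := by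
      rw [hDs2, List.getElem?_append_right (by simp; omega)]
      have : lo + F.length + Ub.length + 1 - (Ds.take lo ++ F ++ Ub).length = 1 := by
        simp only [List.length_append, hlen0]; omega
      rw [this]; rfl
    obtain ⟨r, k1, k2⟩ := U2 (lo + F.length + Ub.length) (by omega) (by omega)
    have m1 := k1.tile hp
    have m2 := k2.tile hp
    rw [hB, tile_lt hi0] at m1
    rw [hB, tile_lt hi1] at m2
    have ht3 : t = 3 := by
      obtain ⟨D, n1, n2, n3⟩ := U1 _ k2
      simp only at n1 n3
      rw [hi1] at n1
      cases n1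
      exact List.eq_of_mem_replicate (List.mem_of_getElem? n3)
    subst ht3
    exact ⟨r, m1, m2⟩

theorem inv_step {j ja : ℕ} (hI : Inv P j L Ds c s ja) (hj : j < P.K) {B' : Board}
    (hc : Click (P.board L Ds c s) B') :
    (∃ L' Ds' c' s' ja', B' = P.board L' Ds' c' s' ∧ Inv P (j + 1) L' Ds' c' s' ja') ∨ Good P L := by
  obtain ⟨p, q, hne, hg⟩ := hc
  obtain ⟨t, ht⟩ := Grp.exists_tile hne hg
  by_cases h0 : t = 0
  · subst h0
    left
    have hup0 : ∀ D ∈ Ds, ∀ u ∈ D.2, u ≠ 0 := by
      intro D hD u hu
      rcases hI.up D hD u hu with h | h <;> omega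
    by_cases hcs : c = false ∧ s = true
    · obtain ⟨rfl, rfl⟩ := hcs
      have hall : ∀ q, tile (P.board L Ds false true) q = some 0 →
          Grp (P.board L Ds false true) p q := fun q hq =>
        (spine_conn hI.sub hup0 ht).trans (spine_conn hI.sub hup0 hq).symm
      rw [remove_color ht hall, color_filter, up_filter hup0]
      refine ⟨_, _, _, _, ja, rfl, ?_, ?_, ?_, ?_, ?_⟩
      · exact (List.filter_sublist).trans hI.sub
      · intro D hD u hu
        exact hI.up D (List.mem_filter.1 hD).1 u hu
      · exact has_filter (hI.has.mono (by omega)) _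
      · have := hI.cnt
        simp at this ⊢
        omega
      · left
        intro x hx
        simpa using (List.mem_filter.1 hx).2
    · have htail : ∀ r, tile (P.board L Ds c s) (Ds.length, r) ≠ some 0 := by
        intro r hr
        rcases tile_tail0 hr with ⟨-, h⟩ | ⟨h, h', -⟩
        · omega
        · exact hcs ⟨h, h'⟩
      rcases tile_cases ht with ⟨D, h1, h2⟩ | ⟨i, col, h1, h2, h3⟩
      · obtain ⟨L', Ds', e1, e2⟩ := inv_run hI (Or.inl rfl) htail h1 h2
        exact ⟨L', Ds', c, s, _, e1, e2⟩
      · -- the spine alone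
        rcases tailc_cases h2 with ⟨-, -, h4⟩ | ⟨h4, h5, h6⟩
        · rw [h4] at h3
          have := List.mem_of_getElem? h3
          simp at this
        · rcases h6 with ⟨h7, h8⟩ | ⟨h7, -⟩
          · subst h4 h7 h8
            -- group of the spine
            have hsp : ∀ q, Grp (P.board L Ds true true) p q → q.1 = Ds.length + 1 := by
              intro q hq
              refine hq.closed (P := fun q => tile (P.board L Ds true true) q = some 0 ∧
                q.1 = Ds.length + 1) ?_ ⟨ht, h1⟩ |>.2
              rintro a b ⟨ha, ha'⟩ ⟨hadj, t', hb, hb'⟩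
              rw [ha] at hb
              cases hb
              refine ⟨hb', ?_⟩
              rcases tile_cases hb' with ⟨D, k1, -⟩ | ⟨i, col, k1, k2, k3⟩
              · have := (List.getElem?_eq_some_iff.1 k1).1
                rcases hadj with ⟨e1, e2⟩ | ⟨e1, e2⟩ <;> omega
              · rcases tailc_cases k2 with ⟨-, -, k4⟩ | ⟨-, -, k6⟩
                · rw [k4] at k3
                  have := List.mem_of_getElem? k3
                  simp at this
                · rcases k6 with ⟨-, k7⟩ | ⟨k7, -⟩
                  · rw [k1, k7]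
                  · exact absurd k7 (by simp)
            have hsp' : ∀ r, r < P.Zs → Grp (P.board L Ds true true) p (Ds.length + 1, r) := by
              intro r hr
              have hp2 : p.2 < P.Zs := by
                rw [h5] at h3
                have := (List.getElem?_eq_some_iff.1 h3).1
                simpa using this
              have h8 : p = (Ds.length + 1, p.2) := Prod.ext h1 rfl
              rw [h8]
              refine conn_intervals (t := 0) (lo := Ds.length + 1) (hi := Ds.length + 2)
                (a := fun _ => 0) (b := fun _ => P.Zs) ?_ ?_ le_rfl (by omega) (Nat.zero_le _) hp2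
                le_rfl (by omega) (Nat.zero_le _) hr
              · intro i hi1 hi2 r _ hr
                obtain rfl : i = Ds.length + 1 := by omega
                have h1 : (P.board L Ds true true)[Ds.length + 1]? = some (List.replicate P.Zs 0) := by
                  rw [board_ge]; rfl
                rw [tile_eq h1, List.getElem?_replicate, if_pos hr]
              · intro i hi1 hi2; omega
            refine ⟨L, Ds.filter (fun D => P.colc L D ≠ []), true, false, ja, ?_, hI.sub, ?_, ?_, ?_, hI.runs⟩
            · refine remove_board rfl ?_ ?_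
              · intro i D D' k1 k2
                rw [k1] at k2
                cases k2
                refine keepCol_eq_self fun j _ hgj => ?_
                have := hsp _ hgj
                have k3 := (List.getElem?_eq_some_iff.1 k1).1
                simp only at this
                omega
              · unfold tailc
                simp only [if_true, Bool.false_eq_true, if_false, List.append_nil]
                rw [List.cons_append, List.nil_append, List.mapIdx_cons, List.mapIdx_cons,
                  List.mapIdx_nil]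
                rw [keepCol_eq_self (c := [2, 2]), keepCol_eq_nil (c := List.replicate P.Zs 0)]
                · simp
                · intro j hj
                  rw [List.length_replicate] at hj
                  simpa using hsp' j hj
                · intro j _ hgj
                  have := hsp _ hgj
                  simp at this
            · intro D hD u hu
              exact hI.up D (List.mem_filter.1 hD).1 u hu
            · exact has_filter (hI.has.mono (by omega)) _
            · have := hI.cnt; omega
          · exact absurd ⟨h7, h4⟩ hcs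
  by_cases h1 : t = 1
  · subst h1
    left
    have htail : ∀ r, tile (P.board L Ds c s) (Ds.length, r) ≠ some 1 := by
      intro r hr
      rcases tile_tail0 hr with ⟨-, h⟩ | ⟨-, -, h⟩ <;> omega
    rcases tile_cases ht with ⟨D, h1, h2⟩ | ⟨i, col, h1, h2, h3⟩
    · obtain ⟨L', Ds', e1, e2⟩ := inv_run hI (Or.inr rfl) htail h1 h2
      exact ⟨L', Ds', c, s, _, e1, e2⟩
    · exfalso
      rcases tailc_cases h2 with ⟨-, -, h4⟩ | ⟨-, h4, -⟩
      · rw [h4] at h3
        have := List.mem_of_getElem? h3
        simp at this
      · rw [h4] at h3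
        have := List.eq_of_mem_replicate (List.mem_of_getElem? h3)
        omega
  by_cases h2 : t = 2
  · subst h2
    left
    have hup2 : ∀ D ∈ Ds, ∀ u ∈ D.2, u ≠ 2 := by
      intro D hD u hu
      rcases hI.up D hD u hu with h | h <;> omega
    have hpos : ∀ q, tile (P.board L Ds c s) q = some 2 → c = true ∧ q.1 = Ds.length ∧ q.2 < 2 := by
      intro q hq
      rcases tile_cases hq with ⟨D, k1, k2⟩ | ⟨i, col, k1, k2, k3⟩
      · have := lt_of_stk (stk_of_colc (hup2 D (List.mem_of_getElem? k1)) k2)
        omega
      · rcases tailc_cases k2 with ⟨k4, k5, k6⟩ | ⟨-, k4, -⟩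
        · subst k5 k6
          refine ⟨k4, k1, ?_⟩
          have := (List.getElem?_eq_some_iff.1 k3).1
          simpa using this
        · rw [k4] at k3
          have := List.eq_of_mem_replicate (List.mem_of_getElem? k3)
          omega
    obtain ⟨hct, -⟩ := hpos p ht
    have hall : ∀ q, tile (P.board L Ds c s) q = some 2 → Grp (P.board L Ds c s) p q := by
      intro q hq
      obtain ⟨-, p1, p2⟩ := hpos p ht
      obtain ⟨-, q1, q2⟩ := hpos q hq
      have e1 : p = (Ds.length, p.2) := Prod.ext p1 rfl
      have e2 : q = (Ds.length, q.2) := Prod.ext q1 rfl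
      rw [e1, e2]
      refine conn_intervals (t := 2) (lo := Ds.length) (hi := Ds.length + 1)
        (a := fun _ => 0) (b := fun _ => 2) ?_ ?_ le_rfl (by omega) (Nat.zero_le _) p2
        le_rfl (by omega) (Nat.zero_le _) q2
      · intro i hi1 hi2 r _ hr
        obtain rfl : i = Ds.length := by omega
        exact tile_two hct hr
      · intro i hi1 hi2; omega
    rw [remove_color ht hall, color_filter, up_filter hup2]
    refine ⟨_, _, _, _, ja, rfl, ?_, ?_, ?_, ?_, ?_⟩
    · exact (List.filter_sublist).trans hI.sub
    · intro D hD u hu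
      exact hI.up D (List.mem_filter.1 hD).1 u hu
    · exact has_filter (hI.has.mono (by omega)) _
    · have := hI.cnt
      rw [hct] at this
      simp at this ⊢
      omega
    · have e : L.filter (fun j => decide (j % 2 ≠ 2)) = L := by
        rw [List.filter_eq_self]
        intro x _
        simp only [ne_eq, decide_not, Bool.not_eq_eq_eq_not, Bool.not_true, decide_eq_false_iff_not]
        omega
      rw [e]
      exact hI.runs
  · rcases inv_upper hI hj h0 h1 h2 ht with ⟨Ds', e1, e2⟩ | h
    · exact Or.inl ⟨L, Ds', c, s, ja, e1, e2⟩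
    · exact Or.inr h

end Par

end Pool.Agent.R538.Clk
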