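import Pool.Agent.R538.Clk.Sound

/-!
# Soundness: from a click sequence to a dominating set
-/

namespace Pool.Agent.R538.Clk

namespace Par

variable {P : Par} {L : List ℕ} {Ds : List (Option ℕ × List ℕ)} {c s : Bool}

theorem rns_range (t : ℕ) (ht : t = 0 ∨ t = 1) (m : ℕ) : m ≤ rns t false (List.range (2 * m)) := by
  induction m with
  | zero => simp
  | succ m ih =>
    have e : List.range (2 * (m + 1)) = List.range (2 * m) ++ [2 * m, 2 * m + 1] := by
      rw [show 2 * (m + 1) = 2 * m + 1 + 1 by ring, List.range_succ, List.range_succ]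
      simp
    rw [e, rns_append]
    have h1 : 1 ≤ rns t (flag t false (List.range (2 * m))) [2 * m, 2 * m + 1] := by
      rcases ht with rfl | rfl
      · have hf : flag 0 false (List.range (2 * m)) = false := by
          unfold flag
          cases h : (List.range (2 * m)).getLast? with
          | none => rfl
          | some x =>
            cases m with
            | zero => simp at h
            | succ m =>
              rw [show 2 * (m + 1) = 2 * m + 1 + 1 by ring, List.range_succ] at h
              simp at h
              simp only [← h, decide_eq_false_iff_not]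
              omega
        rw [hf]
        simp [rns]
      · have h2 : (2 * m) % 2 ≠ 1 := by omega
        have h3 : (2 * m + 1) % 2 = 1 := by omega
        simp [rns, h2, h3]
    omega

theorem has_replicate (q : ℕ) : Has P.blk q (List.replicate q P.blk).flatten := by
  induction q with
  | zero => exact Has.zero _
  | succ q ih =>
    rw [List.replicate_succ, List.flatten_cons]
    have := Has.succ [] _ _ ih
    simpa using this

/-- the initial list of columns -/
def Ds0 (P : Par) : List (Option ℕ × List ℕ) := (List.replicate (2 * P.K + 1) P.blk).flatten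

theorem mem_Ds0 {D : Option ℕ × List ℕ} (h : D ∈ P.Ds0) : D = (none, P.upR) ∨ ∃ w < P.n, D = (some w, P.upG) := by
  unfold Ds0 at h
  rw [List.mem_flatten] at h
  obtain ⟨l, hl, hD⟩ := h
  rw [List.eq_of_mem_replicate hl] at hD
  unfold blk at hD
  rw [List.mem_flatMap] at hD
  obtain ⟨w, hw, hD⟩ := hD
  simp only [List.mem_cons, List.not_mem_nil, or_false] at hD
  rcases hD with h | h
  · exact Or.inl h
  · exact Or.inr ⟨w, List.mem_range.1 hw, h⟩

theorem inv0 : Inv P 0 (List.range (2 * P.N)) P.Ds0 true true 0 where
  sub := List.Sublist.refl _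
  up := by
    intro D hD u hu
    rcases mem_Ds0 hD with rfl | ⟨w, -, rfl⟩
    · simp only [upR, List.mem_append, List.mem_replicate, List.mem_singleton] at hu
      omega
    · simp only [upG, List.mem_replicate] at hu
      omega
  has := by rw [Nat.sub_zero]; exact has_replicate (2 * P.K + 1)
  cnt := by simp
  runs := Or.inr ⟨by simpa using rns_range 0 (Or.inl rfl) P.N, by simpa using rns_range 1 (Or.inr rfl) P.N⟩

theorem al_ge (hn : 0 < P.n) {w : ℕ} (hw : w < P.n) (hself : P.adj w w = true) : P.k + 2 ≤ P.al w := by
  unfold al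
  have hinj : Function.Injective (fun m : ℕ => 2 * (w + P.n * m)) := by
    intro a b h
    simp only at h
    have : P.n * a = P.n * b := by omega
    exact Nat.eq_of_mul_eq_mul_left hn this
  have h1 : ((List.range (P.k + 2)).map (fun m => 2 * (w + P.n * m))).length = P.k + 2 := by simp
  rw [← h1]
  refine List.Subperm.length_le (List.subperm_of_subset ?_ ?_)
  · exact List.Nodup.map hinj List.nodup_range
  · intro x hx
    rw [List.mem_map] at hx
    obtain ⟨m, hm, rfl⟩ := hx
    rw [List.mem_range] at hm
    rw [List.mem_filter, List.mem_range]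
    constructor
    · unfold N
      have : P.n * (m + 1) ≤ P.n * (P.k + 2) := Nat.mul_le_mul_left _ (by omega)
      have e : P.n * (m + 1) = P.n * m + P.n := by ring
      omega
    · have e1 : 2 * (w + P.n * m) % 2 = 0 := by omega
      have e2 : 2 * (w + P.n * m) / 2 = w + P.n * m := by omega
      simp only [hit, e1, e2, Nat.add_mul_mod_self_left, Nat.mod_eq_of_lt hw, hself]
      simp

theorem al_le (w : ℕ) : P.al w ≤ 2 * P.N := by
  unfold al
  have := List.length_filter_le (P.hit w) (List.range (2 * P.N))
  rwa [List.length_range] at this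

theorem upR_three {r : ℕ} (h : (P.colc L (none, P.upR))[r]? = some 3) : r = P.len none L + P.y := by
  unfold colc at h
  by_cases hr : r < (P.stk none L).length
  · rw [List.getElem?_append_left hr] at h
    have := lt_of_stk h
    omega
  · rw [List.getElem?_append_right (not_lt.1 hr), length_stk] at h
    rw [length_stk] at hr
    unfold upR at h
    by_cases h2 : r - P.len none L < P.y
    · rw [List.getElem?_append_left (by simpa using h2)] at h
      have := List.eq_of_mem_replicate (List.mem_of_getElem? h)
      omega
    · rw [List.getElem?_append_right (by simpa using h2)] at h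
      have := (List.getElem?_eq_some_iff.1 h).1
      simp at this
      omega

theorem upG_three {w r : ℕ} (h : (P.colc L (some w, P.upG))[r]? = some 3) :
    P.len (some w) L ≤ r ∧ r < P.len (some w) L + P.H := by
  have h1 := (List.getElem?_eq_some_iff.1 h).1
  unfold colc at h h1
  rw [List.length_append, length_stk] at h1
  simp only [upG, List.length_replicate] at h1
  refine ⟨?_, h1⟩
  by_contra hr
  push Not at hr
  rw [List.getElem?_append_left (by rw [length_stk]; exact hr)] at h
  have := lt_of_stk h
  omega

/-- consequences of the good event for a vertex -/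
theorem good_vertex (hn : 0 < P.n) (hsub : L.Sublist (List.range (2 * P.N))) {w : ℕ} (hw : w < P.n)
    (hself : P.adj w w = true)
    (h : ∃ r : ℕ, (P.colc L (none, P.upR))[r]? = some 3 ∧ (P.colc L (some w, P.upG))[r]? = some 3) :
    2 * P.N - 1 ∈ L ∧ (∃ j ∈ L, j % 2 = 0) ∧
      ∃ j < 2 * P.N, j ∉ L ∧ j % 2 = 0 ∧ P.adj w (j / 2 % P.n) = true := by
  obtain ⟨r, h1, h2⟩ := h
  have h3 := upR_three h1
  obtain ⟨h4, h5⟩ := upG_three h2
  have hN : 0 < P.N := Nat.mul_pos hn (by omega)
  have hnd : L.Nodup := List.Nodup.sublist hsub List.nodup_range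
  have hcnt := List.nodup_iff_count_le_one.1 hnd (2 * P.N - 1)
  rw [len_some hN] at h4 h5
  rw [h3, len_none] at h4 h5
  have hlen := hsub.length_le
  rw [List.length_range] at hlen
  have hal := al_le (P := P) w
  have hal2 := al_ge hn hw hself
  have hfl : (L.filter (P.hit w)).length ≤ L.length := List.length_filter_le _ _
  have hy : P.y = 2 * P.N + P.H := rfl
  have hH : P.H = P.k + 1 := rfl
  have hc1 : L.count (2 * P.N - 1) = 1 := by
    by_contra hne
    have : L.count (2 * P.N - 1) = 0 := by omega
    rw [this, zero_mul] at h5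
    omega
  rw [hc1, one_mul] at h4 h5
  have hmem : 2 * P.N - 1 ∈ L := List.count_pos_iff.1 (by omega)
  have hlt : (L.filter (P.hit w)).length < P.al w := by omega
  have hpos : 0 < (L.filter (P.hit w)).length := by omega
  refine ⟨hmem, ?_, ?_⟩
  · obtain ⟨j, hj⟩ := List.exists_mem_of_length_pos hpos
    rw [List.mem_filter] at hj
    refine ⟨j, hj.1, ?_⟩
    have := hj.2
    simp only [hit, Bool.and_eq_true, decide_eq_true_eq] at this
    exact this.1
  · by_contra hcon
    push Not at hcon
    have hss : (List.range (2 * P.N)).filter (P.hit w) ⊆ L.filter (P.hit w) := by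
      intro j hj
      rw [List.mem_filter] at hj ⊢
      refine ⟨?_, hj.2⟩
      by_contra hjL
      have h6 := hj.2
      simp only [hit, Bool.and_eq_true, decide_eq_true_eq] at h6
      exact hcon j (List.mem_range.1 hj.1) hjL h6.1 h6.2
    have := List.Subperm.length_le (List.subperm_of_subset (List.Nodup.filter _ List.nodup_range) hss)
    unfold al at hlt
    omega

theorem good_dom (hn : 0 < P.n) (hself : ∀ w < P.n, P.adj w w = true) {j ja : ℕ}
    (hI : Inv P j L Ds c s ja) (hj : j ≤ P.K) (hG : Good P L) {B' : Board}
    (hR : Reaches (P.K - j) (P.board L Ds c s) B') (h0 : tiles B' = 0) :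
    ∃ D : Finset ℕ, D.card ≤ P.k ∧ ∀ w < P.n, ∃ v ∈ D, v < P.n ∧ P.adj w v = true := by
  classical
  have key := fun w (hw : w < P.n) => good_vertex hn hI.sub hw (hself w hw) (hG w hw)
  obtain ⟨hlast, ⟨j₀, hj₀, hj₀'⟩, -⟩ := key 0 hn
  have hN : 0 < P.N := Nat.mul_pos hn (by omega)
  have hnd : L.Nodup := List.Nodup.sublist hI.sub List.nodup_range
  -- colours
  obtain ⟨F, G, hFG⟩ := (hI.has.mono (q' := 1) (by omega)).one
  obtain ⟨U, V, hUV⟩ := blk_split hn
  have hRmem : (none, P.upR) ∈ Ds := by
    rw [hFG, hUV]; simp
  have hcolmem : P.colc L (none, P.upR) ∈ P.board L Ds c s := by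
    unfold board
    exact List.mem_append_left _ (List.mem_map_of_mem hRmem)
  have hstkmem : ∀ x ∈ L, x % 2 ∈ P.colc L (none, P.upR) := by
    intro x hx
    unfold colc stk
    refine List.mem_append_left _ (List.mem_flatMap.2 ⟨x, hx, ?_⟩)
    rw [List.mem_replicate]
    exact ⟨(th_pos _ _).ne', rfl⟩
  have c0 : 0 ∈ P.colc L (none, P.upR) := by
    have := hstkmem _ hj₀
    rwa [hj₀'] at this
  have c1 : 1 ∈ P.colc L (none, P.upR) := by
    have := hstkmem _ hlast
    rwa [show (2 * P.N - 1) % 2 = 1 by omega] at this
  have c3 : 3 ∈ P.colc L (none, P.upR) := by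
    unfold colc upR; simp
  have c4 : 4 ∈ P.colc L (none, P.upR) := by
    have : P.y ≠ 0 := by unfold y; omega
    unfold colc upR
    simp [List.mem_replicate, this]
  have hbound : ja ≤ P.k := by
    have hcnt := hI.cnt
    have hK : P.K = P.k + 5 := rfl
    cases hc : c with
    | false =>
      rw [hc] at hcnt
      simp at hcnt
      have := hR.colors {0, 1, 3, 4} (by
        intro t ht
        refine ⟨_, hcolmem, ?_⟩
        simp only [Finset.mem_insert, Finset.mem_singleton] at ht
        rcases ht with rfl | rfl | rfl | rfl <;> assumption) h0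
      have h4 : ({0, 1, 3, 4} : Finset ℕ).card = 4 := by decide
      omega
    | true =>
      rw [hc] at hcnt
      simp at hcnt
      have := hR.colors {0, 1, 2, 3, 4} (by
        intro t ht
        by_cases ht2 : t = 2
        · refine ⟨[2, 2], ?_, by rw [ht2]; simp⟩
          unfold board tailc
          rw [hc]
          simp
        · refine ⟨_, hcolmem, ?_⟩
          simp only [Finset.mem_insert, Finset.mem_singleton] at ht
          rcases ht with rfl | rfl | rfl | rfl | rfl
          · exact c0
          · exact c1
          · exact absurd rfl ht2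
          · exact c3
          · exact c4) h0
      have h4 : ({0, 1, 2, 3, 4} : Finset ℕ).card = 5 := by decide
      omega
  -- the number of missing even levels
  have hruns : P.N ≤ rns 0 false L + ja := by
    rcases hI.runs with h | h
    · exact absurd hj₀' (h _ hj₀)
    · exact h.1
  let E : Finset ℕ := (Finset.range (2 * P.N)).filter (fun j => j % 2 = 0)
  let Mi : Finset ℕ := E.filter (fun j => j ∉ L)
  have hE : E.card = P.N := by
    have : E = (Finset.range P.N).image (fun i => 2 * i) := by
      ext x
      simp only [E, Finset.mem_filter, Finset.mem_range, Finset.mem_image]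
      constructor
      · rintro ⟨h1, h2⟩
        exact ⟨x / 2, by omega, by omega⟩
      · rintro ⟨i, h1, rfl⟩
        omega
    rw [this, Finset.card_image_of_injective _ (fun a b h => by change 2 * a = 2 * b at h; omega),
      Finset.card_range]
  have hMi : Mi.card ≤ ja := by
    have h1 : Mi.card + (E.filter (fun j => j ∈ L)).card = E.card := by
      have := Finset.card_filter_add_card_filter_not (s := E) (fun j => j ∈ L)
      simp only [Mi]
      omega
    have h2 : (L.filter (fun j => decide (j % 2 = 0))).length ≤ (E.filter (fun j => j ∈ L)).card := by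
      rw [← List.toFinset_card_of_nodup (hnd.filter _)]
      refine Finset.card_le_card ?_
      intro x hx
      simp only [List.mem_toFinset, List.mem_filter, decide_eq_true_eq] at hx
      simp only [E, Finset.mem_filter, Finset.mem_range]
      exact ⟨⟨List.mem_range.1 (hI.sub.subset hx.1), hx.2⟩, hx.1⟩
    have h3 := rns_le_filter 0 false L
    omega
  refine ⟨Mi.image (fun j => j / 2 % P.n), (Finset.card_image_le).trans (hMi.trans hbound), ?_⟩
  intro w hw
  obtain ⟨-, -, j, h1, h2, h3, h4⟩ := key w hw
  refine ⟨j / 2 % P.n, ?_, Nat.mod_lt _ hn, h4⟩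
  rw [Finset.mem_image]
  exact ⟨j, by simp only [Mi, E, Finset.mem_filter, Finset.mem_range]; exact ⟨⟨h1, h3⟩, h2⟩, rfl⟩

theorem sound_aux (hn : 0 < P.n) (hself : ∀ w < P.n, P.adj w w = true) {r : ℕ} {B B' : Board}
    (hR : Reaches r B B') : ∀ (j ja : ℕ) (L : List ℕ) (Ds : List (Option ℕ × List ℕ)) (c s : Bool),
    B = P.board L Ds c s → Inv P j L Ds c s ja → j + r = P.K → tiles B' = 0 →
    ∃ D : Finset ℕ, D.card ≤ P.k ∧ ∀ w < P.n, ∃ v ∈ D, v < P.n ∧ P.adj w v = true := by
  induction hR with
  | refl r B =>
    intro j ja L Ds c s hB hI hjr h0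
    exfalso
    obtain ⟨F, G, hFG⟩ := (hI.has.mono (q' := 1) (by omega)).one
    obtain ⟨U, V, hUV⟩ := blk_split hn
    have hRmem : (none, P.upR) ∈ Ds := by
      rw [hFG, hUV]; simp
    have hcolmem : P.colc L (none, P.upR) ∈ B := by
      rw [hB]
      unfold board
      exact List.mem_append_left _ (List.mem_map_of_mem hRmem)
    have h1 : (P.colc L (none, P.upR)).length ≤ tiles B :=
      List.single_le_sum (by simp) _ (List.mem_map_of_mem hcolmem)
    have h2 : 0 < (P.colc L (none, P.upR)).length := by
      unfold colc upR; simp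
    omega
  | @step r B B₁ B₂ h1 h2 ih =>
    intro j ja L Ds c s hB hI hjr h0
    have h3 := h1
    rw [hB] at h1
    rcases inv_step hI (by omega) h1 with ⟨L', Ds', c', s', ja', e1, e2⟩ | hG
    · exact ih (j + 1) ja' L' Ds' c' s' e1 e2 (by omega) h0
    · refine good_dom hn hself hI (by omega) hG (B' := B₂) ?_ h0
      rw [show P.K - j = r + 1 by omega, ← hB]
      exact Reaches.step h3 h2

/-- **Soundness.** -/
theorem sound (hn : 0 < P.n) (hself : ∀ w < P.n, P.adj w w = true)
    (h : Elim (P.board (List.range (2 * P.N)) P.Ds0 true true, P.K)) :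
    ∃ D : Finset ℕ, D.card ≤ P.k ∧ ∀ w < P.n, ∃ v ∈ D, v < P.n ∧ P.adj w v = true := by
  obtain ⟨B', h1, h2⟩ := h
  exact sound_aux hn hself h1 0 0 _ _ _ _ rfl inv0 (by simp) h2

end Par

end Pool.Agent.R538.Clk
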