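import Pool.Agent.R538.Clk.Basic

/-!
# The special boards

Levels are numbers `j < 2 N`; the colour of a level is `j % 2` and it stands for the vertex
`(j / 2) % n`. A column consists of a stack of (remaining) levels and an upper part.
-/

namespace Pool.Agent.R538.Clk

/-- Parameters: number of vertices, closed adjacency, size of the dominating set. -/
structure Par where
  /-- number of vertices -/
  n : ℕ
  /-- closed adjacency -/
  adj : ℕ → ℕ → Bool
  /-- size -/
  k : ℕ

namespace Par

variable (P : Par)

/-- half the number of levels -/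
def N : ℕ := P.n * (P.k + 2)
/-- height of the upper part of a vertex column -/
def H : ℕ := P.k + 1
/-- number of `4` tiles in a reference column -/
def y : ℕ := 2 * P.N + P.H
/-- basic thickness of a level -/
def Z : ℕ := 2 * P.N + 1
/-- number of clicks -/
def K : ℕ := P.k + 5

/-- The level `j` is thicker in the column of `w`. -/
def hit (w j : ℕ) : Bool := decide (j % 2 = 0) && P.adj w (j / 2 % P.n)

/-- number of levels hitting `w` -/
def al (w : ℕ) : ℕ := ((List.range (2 * P.N)).filter (P.hit w)).length

/-- thickness of the level `j` in a column -/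
def th (ty : Option ℕ) (j : ℕ) : ℕ :=
  match ty with
  | none => P.Z
  | some w => P.Z + (if P.hit w j then 1 else 0) + (if j + 1 = 2 * P.N then P.y + 1 - P.al w else 0)

/-- a stack of levels -/
def stk (ty : Option ℕ) (L : List ℕ) : List ℕ := L.flatMap (fun j => List.replicate (P.th ty j) (j % 2))

/-- its height -/
def len (ty : Option ℕ) (L : List ℕ) : ℕ := (L.map (P.th ty)).sum

/-- a column -/
def colc (L : List ℕ) (D : Option ℕ × List ℕ) : List ℕ := P.stk D.1 L ++ D.2

/-- height of the spine -/
def Zs : ℕ := 2 * P.N * (P.Z + 1) + P.y + 1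

/-- the separator column and the spine -/
def tailc (c s : Bool) : Board :=
  (if c then [[2, 2]] else []) ++ (if s then [List.replicate P.Zs 0] else [])

/-- the board -/
def board (L : List ℕ) (Ds : List (Option ℕ × List ℕ)) (c s : Bool) : Board :=
  Ds.map (P.colc L) ++ P.tailc c s

variable {P}

theorem Z_le_th (ty : Option ℕ) (j : ℕ) : P.Z ≤ P.th ty j := by
  unfold th; split <;> omega

theorem th_pos (ty : Option ℕ) (j : ℕ) : 0 < P.th ty j := by
  have := Z_le_th (P := P) ty j
  have : 0 < P.Z := by unfold Z; omega
  omega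

theorem len_nil (ty : Option ℕ) : P.len ty [] = 0 := rfl

theorem len_cons (ty : Option ℕ) (j : ℕ) (L : List ℕ) : P.len ty (j :: L) = P.th ty j + P.len ty L := by
  simp [len]

theorem len_append (ty : Option ℕ) (L L' : List ℕ) : P.len ty (L ++ L') = P.len ty L + P.len ty L' := by
  simp [len]

theorem stk_append (ty : Option ℕ) (L L' : List ℕ) : P.stk ty (L ++ L') = P.stk ty L ++ P.stk ty L' := by
  simp [stk]

theorem stk_cons (ty : Option ℕ) (j : ℕ) (L : List ℕ) :
    P.stk ty (j :: L) = List.replicate (P.th ty j) (j % 2) ++ P.stk ty L := by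
  simp [stk]

theorem length_stk (ty : Option ℕ) (L : List ℕ) : (P.stk ty L).length = P.len ty L := by
  induction L with
  | nil => rfl
  | cons j L ih => rw [stk_cons, len_cons, List.length_append, ih, List.length_replicate]

theorem len_none (L : List ℕ) : P.len none L = P.Z * L.length := by
  induction L with
  | nil => simp [len]
  | cons j L ih => rw [len_cons, ih, List.length_cons]; simp only [th]; ring

theorem len_some (hN : 0 < P.N) (w : ℕ) (L : List ℕ) :
    P.len (some w) L = P.Z * L.length + (L.filter (P.hit w)).length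
      + L.count (2 * P.N - 1) * (P.y + 1 - P.al w) := by
  induction L with
  | nil => simp [len]
  | cons j L ih =>
    rw [len_cons, ih, List.length_cons, List.count_cons, List.filter_cons]
    simp only [th]
    have e : (j + 1 = 2 * P.N) ↔ (j == 2 * P.N - 1) = true := by
      simp only [beq_iff_eq]; omega
    by_cases h1 : P.hit w j = true
    · rw [if_pos h1, if_pos h1, List.length_cons]
      by_cases h2 : j + 1 = 2 * P.N
      · rw [if_pos h2, if_pos (e.1 h2)]; ring
      · rw [if_neg h2, if_neg (fun h => h2 (e.2 h))]; ring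
    · rw [if_neg h1, if_neg h1]
      by_cases h2 : j + 1 = 2 * P.N
      · rw [if_pos h2, if_pos (e.1 h2)]; ring
      · rw [if_neg h2, if_neg (fun h => h2 (e.2 h))]; ring

theorem off1 {L₁ L₂ : List ℕ} {l : ℕ} (h : (L₁ ++ l :: L₂).Sublist (List.range (2 * P.N)))
    (ty : Option ℕ) : P.len ty L₁ ≤ P.Z * L₁.length + L₁.length := by
  have hp : (L₁ ++ l :: L₂).Pairwise (· < ·) := List.Pairwise.sublist h List.pairwise_lt_range
  have hl : l < 2 * P.N := List.mem_range.1 (h.subset (by simp))
  have h1 : ∀ x ∈ L₁, x + 1 ≠ 2 * P.N := by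
    intro x hx
    have := (List.pairwise_append.1 hp).2.2 x hx l (by simp)
    omega
  clear hp h
  induction L₁ with
  | nil => simp [len]
  | cons j L ih =>
    rw [len_cons, List.length_cons]
    have h2 := ih (fun x hx => h1 x (List.mem_cons_of_mem _ hx))
    have h3 := h1 j List.mem_cons_self
    have h4 : P.th ty j ≤ P.Z + 1 := by
      unfold th
      split
      · omega
      · rw [if_neg h3]; split_ifs <;> omega
    have : P.Z * (L.length + 1) = P.Z * L.length + P.Z := by ring
    omega

theorem le_len (L : List ℕ) (ty : Option ℕ) : P.Z * L.length ≤ P.len ty L := by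
  induction L with
  | nil => simp [len]
  | cons j L ih =>
    rw [len_cons, List.length_cons]
    have := Z_le_th (P := P) ty j
    have : P.Z * (L.length + 1) = P.Z * L.length + P.Z := by ring
    omega

/-- Offsets between columns are small. -/
theorem off {L₁ L₂ : List ℕ} {l : ℕ} (h : (L₁ ++ l :: L₂).Sublist (List.range (2 * P.N)))
    (ty ty' : Option ℕ) : P.len ty L₁ < P.len ty' L₁ + P.Z := by
  have h1 := off1 h ty
  have h2 := le_len (P := P) L₁ ty'
  have h3 := h.length_le
  simp only [List.length_append, List.length_cons, List.length_range] at h3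
  unfold Z at *
  omega

theorem stk_low {ty : Option ℕ} {L : List ℕ} {t r : ℕ} (hL : ∀ x, L.getLast? = some x → x % 2 ≠ t)
    (h : (P.stk ty L)[r]? = some t) : r + P.Z ≤ P.len ty L := by
  rcases List.eq_nil_or_concat L with rfl | ⟨L', x, rfl⟩
  · simp [stk] at h
  · simp only [List.concat_eq_append] at *
    have hx := hL x (by simp)
    rw [stk_append] at h
    rw [len_append]
    have h1 : P.len ty [x] = P.th ty x := by simp [len]
    have h2 := Z_le_th (P := P) ty x
    by_cases hr : r < P.len ty L'
    · omega
    · exfalso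
      rw [List.getElem?_append_right (by rw [length_stk]; omega)] at h
      have h3 : P.stk ty [x] = List.replicate (P.th ty x) (x % 2) := by simp [stk]
      rw [h3] at h
      have h4 := List.mem_of_getElem? h
      exact hx (List.eq_of_mem_replicate h4).symm

theorem stk_high {ty : Option ℕ} {L up : List ℕ} {t r : ℕ} (hL : ∀ x, L.head? = some x → x % 2 ≠ t)
    (hup : ∀ u ∈ up, u ≠ t) (h : (P.stk ty L ++ up)[r]? = some t) : P.Z ≤ r ∧ L ≠ [] := by
  cases L with
  | nil =>
    simp only [stk, List.flatMap_nil, List.nil_append] at h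
    exact absurd rfl (hup t (List.mem_of_getElem? h))
  | cons x L =>
    refine ⟨?_, by simp⟩
    have hx := hL x (by simp)
    rw [stk_cons, List.append_assoc] at h
    by_contra hr
    push Not at hr
    have h2 := Z_le_th (P := P) ty x
    rw [List.getElem?_append_left (by simp; omega)] at h
    have h4 := List.mem_of_getElem? h
    exact hx (List.eq_of_mem_replicate h4).symm

theorem stk_run {ty : Option ℕ} {L : List ℕ} {t r : ℕ} (hL : ∀ x ∈ L, x % 2 = t)
    (hr : r < P.len ty L) : (P.stk ty L)[r]? = some t := by
  induction L generalizing r with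
  | nil => simp [len] at hr
  | cons x L ih =>
    rw [stk_cons]
    rw [len_cons] at hr
    by_cases h : r < P.th ty x
    · rw [List.getElem?_append_left (by simpa using h), List.getElem?_replicate, if_pos h,
        hL x List.mem_cons_self]
    · rw [List.getElem?_append_right (by simp; omega)]
      exact ih (fun y hy => hL y (List.mem_cons_of_mem _ hy)) (by simp; omega)

/-! ### Tiles of the board -/

variable {L : List ℕ} {Ds : List (Option ℕ × List ℕ)} {c s : Bool}

theorem board_lt {i : ℕ} {D : Option ℕ × List ℕ} (h : Ds[i]? = some D) :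
    (P.board L Ds c s)[i]? = some (P.colc L D) := by
  unfold board
  have hi := (List.getElem?_eq_some_iff.1 h).1
  rw [List.getElem?_append_left (by simpa using hi), List.getElem?_map, h]
  rfl

theorem board_ge {i : ℕ} : (P.board L Ds c s)[Ds.length + i]? = (P.tailc c s)[i]? := by
  unfold board
  rw [List.getElem?_append_right (by simp)]
  simp

theorem tile_lt {i r : ℕ} {D : Option ℕ × List ℕ} (h : Ds[i]? = some D) :
    tile (P.board L Ds c s) (i, r) = (P.colc L D)[r]? := tile_eq (board_lt h)

/-- A tile of the board lies in a stack column or in the tail. -/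
theorem tile_cases {q : ℕ × ℕ} {t : ℕ} (h : tile (P.board L Ds c s) q = some t) :
    (∃ D, Ds[q.1]? = some D ∧ (P.colc L D)[q.2]? = some t) ∨
      (∃ i col, q.1 = Ds.length + i ∧ (P.tailc c s)[i]? = some col ∧ col[q.2]? = some t) := by
  obtain ⟨col, h1, h2⟩ := tile_some (i := q.1) (j := q.2) h
  by_cases hq : q.1 < Ds.length
  · left
    have h3 : Ds[q.1]? = some Ds[q.1] := List.getElem?_eq_getElem hq
    refine ⟨_, h3, ?_⟩
    rw [board_lt h3] at h1
    rw [Option.some.inj h1]
    exact h2
  · right
    obtain ⟨i, hi⟩ := Nat.exists_eq_add_of_le (not_lt.1 hq)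
    refine ⟨i, col, hi, ?_, h2⟩
    rw [hi, board_ge] at h1
    exact h1

theorem tailc_cases {i : ℕ} {col : List ℕ} (h : (P.tailc c s)[i]? = some col) :
    (c = true ∧ i = 0 ∧ col = [2, 2]) ∨
      (s = true ∧ col = List.replicate P.Zs 0 ∧ ((c = true ∧ i = 1) ∨ (c = false ∧ i = 0))) := by
  unfold tailc at h
  cases c <;> cases s <;> simp at h
  · obtain ⟨h1, h2⟩ := List.getElem?_eq_some_iff.1 h
    simp at h1
    subst h1
    right
    simp at h2
    exact ⟨rfl, h2.symm, Or.inr ⟨rfl, rfl⟩⟩
  · obtain ⟨h1, h2⟩ := List.getElem?_eq_some_iff.1 h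
    simp at h1
    subst h1
    left
    simp at h2
    exact ⟨rfl, rfl, h2.symm⟩
  · match i, h with
    | 0, h => simp at h; exact Or.inl ⟨rfl, rfl, h.symm⟩
    | 1, h => simp at h; exact Or.inr ⟨rfl, h.symm, Or.inl ⟨rfl, rfl⟩⟩
    | (i + 2), h => simp at h

end Par

end Pool.Agent.R538.Clk
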